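import Pool.Agent.TH215.CI.N

/-!
`R = RL k` is a complete intersection of dimension three.
-/

set_option autoImplicit false

open RingTheory.Sequence

namespace Pool.Agent.TH215.CI

open T MvPolynomial

variable (k : Type) [Field k]

/-- `S = k[x, y, z, u, v]` -/
abbrev S5 : Type := MvPolynomial (Fin 5) k

variable {k} in
/-- `v² + x v - z u` -/
noncomputable def q1 : S5 k := X 4 ^ 2 + X 0 * X 4 - X 2 * X 3

variable {k} in
/-- `u² - y u + z v` -/
noncomputable def q2 : S5 k := X 3 ^ 2 - X 1 * X 3 + X 2 * X 4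

/-- the ideal `(q1, q2)` -/
noncomputable def qI : Ideal (S5 k) := Ideal.span {q1, q2}

/-- `k → T` -/
noncomputable def kT : k →+* T k := (algebraMap (P k) (T k)).comp C

/-- `S → T` -/
noncomputable def ψ : S5 k →+* T k :=
  eval₂Hom (kT k) ![algebraMap (P k) (T k) px, algebraMap (P k) (T k) py,
    algebraMap (P k) (T k) pz, u, v]

@[simp] lemma ψ_0 : ψ k (X 0) = algebraMap (P k) (T k) px := by simp [ψ]
@[simp] lemma ψ_1 : ψ k (X 1) = algebraMap (P k) (T k) py := by simp [ψ]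
@[simp] lemma ψ_2 : ψ k (X 2) = algebraMap (P k) (T k) pz := by simp [ψ]
@[simp] lemma ψ_3 : ψ k (X 3) = u := by simp [ψ]
@[simp] lemma ψ_4 : ψ k (X 4) = v := by simp [ψ]
@[simp] lemma ψ_C (r : k) : ψ k (C r) = algebraMap (P k) (T k) (C r) := by simp [ψ, kT]

/-- `S → S / (q1, q2)` -/
noncomputable def mk5 : S5 k →+* (S5 k ⧸ qI k) := Ideal.Quotient.mk _

/-- `P → S / (q1, q2)` -/
noncomputable def jP : P k →+* (S5 k ⧸ qI k) :=
  eval₂Hom ((mk5 k).comp C) ![mk5 k (X 0), mk5 k (X 1), mk5 k (X 2)]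

@[simp] lemma jP_x : jP k px = mk5 k (X 0) := by simp [jP, px]
@[simp] lemma jP_y : jP k py = mk5 k (X 1) := by simp [jP, py]
@[simp] lemma jP_z : jP k pz = mk5 k (X 2) := by simp [jP, pz]
@[simp] lemma jP_C (r : k) : jP k (C r) = mk5 k (C r) := by simp [jP]

lemma hV : mk5 k (X 4) ^ 2 = mk5 k (X 2) * mk5 k (X 3) - mk5 k (X 0) * mk5 k (X 4) := by
  have : mk5 k q1 = 0 := Ideal.Quotient.eq_zero_iff_mem.2 (Ideal.subset_span (by simp))
  rw [q1, map_sub, map_add, map_pow, map_mul, map_mul] at this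
  linear_combination this

lemma hU : mk5 k (X 3) ^ 2 = mk5 k (X 1) * mk5 k (X 3) - mk5 k (X 2) * mk5 k (X 4) := by
  have : mk5 k q2 = 0 := Ideal.Quotient.eq_zero_iff_mem.2 (Ideal.subset_span (by simp))
  rw [q2, map_add, map_sub, map_pow, map_mul, map_mul] at this
  linear_combination this

lemma θ_mul_aux {A : Type} [CommRing A] (x y z u v f0 f1 f2 f3 g0 g1 g2 g3 : A)
    (hv : v ^ 2 = z * u - x * v) (hu : u ^ 2 = y * u - z * v) :
    (f0 * g0) + (f0 * g1 + f1 * g0 + y * (f1 * g1) + z * (f2 * g2)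
     - z ^ 2 * (f1 * g3 + f3 * g1) + y * z * (f2 * g3 + f3 * g2)
     + (y ^ 2 * z + x * z ^ 2) * (f3 * g3)) * u +
    (f0 * g2 + f2 * g0 - z * (f1 * g1) - x * (f2 * g2)
     + x * z * (f1 * g3 + f3 * g1) - z ^ 2 * (f2 * g3 + f3 * g2)
     - (y * z ^ 2 + x ^ 2 * z) * (f3 * g3)) * v +
    (f0 * g3 + f3 * g0 + (f1 * g2 + f2 * g1)
     + y * (f1 * g3 + f3 * g1) - x * (f2 * g3 + f3 * g2)
     - (x * y + z ^ 2) * (f3 * g3)) * (u * v) =
    (f0 + f1 * u + f2 * v + f3 * (u * v)) * (g0 + g1 * u + g2 * v + g3 * (u * v)) := by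
  linear_combination (-(f1 * g1) - (f1 * g3 + f3 * g1) * v - (f2 * g3 + f3 * g2) * z
    - f3 * g3 * (v ^ 2 + y * z)) * hu +
    (z * (f1 * g3 + f3 * g1) - f2 * g2 - (f2 * g3 + f3 * g2) * u
    - f3 * g3 * (y * u - z * v + x * z)) * hv

/-- `T → S / (q1, q2)` -/
noncomputable def θ : T k →+* (S5 k ⧸ qI k) where
  toFun f := jP k f.e0 + jP k f.e1 * mk5 k (X 3) + jP k f.e2 * mk5 k (X 4) +
    jP k f.e3 * (mk5 k (X 3) * mk5 k (X 4))
  map_one' := by simp
  map_zero' := by simp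
  map_add' f g := by
    simp only [add_e0, add_e1, add_e2, add_e3, map_add]
    ring
  map_mul' f g := by
    simp only [mul_e0, mul_e1, mul_e2, mul_e3, map_add, map_sub, map_mul, map_pow, jP_x, jP_y,
      jP_z]
    exact θ_mul_aux _ _ _ _ _ _ _ _ _ _ _ _ _ (hV k) (hU k)

lemma θ_algebraMap (p : P k) : θ k (algebraMap (P k) (T k) p) = jP k p := by
  simp [θ]

lemma θ_u : θ k u = mk5 k (X 3) := by
  simp [θ, u]

lemma θ_v : θ k v = mk5 k (X 4) := by
  simp [θ, v]

lemma θ_ψ (f : S5 k) : θ k (ψ k f) = mk5 k f := by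
  have : (θ k).comp (ψ k) = mk5 k := by
    refine MvPolynomial.ringHom_ext ?_ ?_
    · intro r
      simp [θ_algebraMap]
    · intro i
      fin_cases i
      · change θ k (ψ k (X 0)) = _
        rw [ψ_0, θ_algebraMap, jP_x]
        rfl
      · change θ k (ψ k (X 1)) = _
        rw [ψ_1, θ_algebraMap, jP_y]
        rfl
      · change θ k (ψ k (X 2)) = _
        rw [ψ_2, θ_algebraMap, jP_z]
        rfl
      · change θ k (ψ k (X 3)) = _
        rw [ψ_3, θ_u]
        rfl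
      · change θ k (ψ k (X 4)) = _
        rw [ψ_4, θ_v]
        rfl
  exact RingHom.congr_fun this f

lemma qI_le : qI k ≤ RingHom.ker (ψ k) := by
  rw [qI, Ideal.span_le]
  rintro _ (rfl | rfl) <;> rw [SetLike.mem_coe, RingHom.mem_ker]
  · simp only [q1, map_add, map_sub, map_mul, map_pow, ψ_0, ψ_2, ψ_3, ψ_4, pow_two]
    ext1 <;> simp [u, v]
  · simp only [q2, map_add, map_sub, map_mul, map_pow, ψ_1, ψ_2, ψ_3, ψ_4, pow_two]
    ext1 <;> simp [u, v]

lemma ker_ψ : RingHom.ker (ψ k) = qI k := by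
  refine le_antisymm (fun f hf => ?_) (qI_le k)
  rw [RingHom.mem_ker] at hf
  have := θ_ψ k f
  rw [hf, map_zero] at this
  exact Ideal.Quotient.eq_zero_iff_mem.1 this.symm

/-- `S / (q1, q2) → T` -/
noncomputable def ψq : (S5 k ⧸ qI k) →+* T k :=
  Ideal.Quotient.lift _ (ψ k) fun a ha => qI_le k ha

@[simp] lemma ψq_mk (f : S5 k) : ψq k (mk5 k f) = ψ k f := Ideal.Quotient.lift_mk _ _ _

lemma ψq_jP (p : P k) : ψq k (jP k p) = algebraMap (P k) (T k) p := by
  have : (ψq k).comp (jP k) = algebraMap (P k) (T k) := by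
    refine MvPolynomial.ringHom_ext ?_ ?_
    · intro r
      simp
    · intro i
      fin_cases i
      · change ψq k (jP k px) = _
        rw [jP_x, ψq_mk, ψ_0]
        rfl
      · change ψq k (jP k py) = _
        rw [jP_y, ψq_mk, ψ_1]
        rfl
      · change ψq k (jP k pz) = _
        rw [jP_z, ψq_mk, ψ_2]
        rfl
  exact RingHom.congr_fun this p

/-- `S / (q1, q2) ≃ T` -/
noncomputable def eT : (S5 k ⧸ qI k) ≃+* T k where
  __ := ψq k
  invFun := θ k
  left_inv f := by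
    obtain ⟨f, rfl⟩ := Ideal.Quotient.mk_surjective f
    change θ k (ψq k (mk5 k f)) = mk5 k f
    rw [ψq_mk, θ_ψ]
  right_inv f := by
    change ψq k (jP k f.e0 + jP k f.e1 * mk5 k (X 3) + jP k f.e2 * mk5 k (X 4) +
      jP k f.e3 * (mk5 k (X 3) * mk5 k (X 4))) = f
    simp only [map_add, map_mul, ψq_jP, ψq_mk, ψ_3, ψ_4]
    ext1 <;> simp [u, v]

/-- the maximal ideal of the origin of `S` -/
noncomputable def mS : Ideal (S5 k) := (mT k).comap (ψ k)

instance : (mS k).IsPrime := Ideal.IsPrime.comap _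

/-- the regular local ring -/
abbrev SL : Type := Localization.AtPrime (mS k)

lemma mem_mS_iff (f : S5 k) : f ∈ mS k ↔ constantCoeff f = 0 := by
  have : (evT k).comp (ψ k) = constantCoeff := by
    refine MvPolynomial.ringHom_ext ?_ ?_
    · intro r
      simp [evT, εK]
    · intro i
      fin_cases i <;> simp [evT, εK, ψ, px, py, pz, u, v]
  rw [mS, Ideal.mem_comap, mT, RingHom.mem_ker, ← RingHom.comp_apply, this]

end Pool.Agent.TH215.CI
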