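import Pool.Agent.TH215.CI.N
import Pool.Agent.TH215.CI.S

/-!
`k` is a coefficient field of `R = RL k`.
-/

set_option autoImplicit false

open IsLocalRing

namespace Pool.Agent.TH215.CI

variable (k : Type) [Field k]

lemma mem_max (t : T k) (ht : t ∈ mT k) : ι k t ∈ maximalIdeal (RL k) :=
  (IsLocalization.AtPrime.to_map_mem_maximal_iff (RL k) (mT k) t).2 ht

lemma residue_bij : Function.Bijective (((residue (RL k)).comp (ι k)).comp (kT k)) := by
  refine ⟨RingHom.injective _, fun y => ?_⟩
  obtain ⟨y, rfl⟩ := residue_surjective y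
  obtain ⟨⟨t, s⟩, h⟩ := IsLocalization.surj (mT k).primeCompl y
  have h1 : y * ι k s = ι k t := h
  have key : ∀ t : T k, residue (RL k) (ι k t) = residue (RL k) (ι k (kT k (evT k t))) := by
    intro t
    rw [← sub_eq_zero, ← map_sub, ← map_sub, residue_eq_zero_iff]
    refine mem_max k _ ?_
    rw [mem_mT, T.sub_e0, map_sub]
    change MvPolynomial.constantCoeff t.e0 -
      MvPolynomial.constantCoeff (MvPolynomial.C (evT k t) : P k) = 0
    rw [MvPolynomial.constantCoeff_C]
    exact sub_self _
  have hs : evT k s ≠ 0 := fun h0 => s.2 h0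
  refine ⟨evT k t / evT k s, ?_⟩
  have h2 := congrArg (residue (RL k)) h1
  rw [map_mul, key t, key s] at h2
  have h3 : residue (RL k) (ι k (kT k (evT k s))) ≠ 0 := by
    intro h0
    exact hs ((map_eq_zero (((residue (RL k)).comp (ι k)).comp (kT k))).1 h0)
  apply mul_right_cancel₀ h3
  rw [h2]
  change (((residue (RL k)).comp (ι k)).comp (kT k)) _ *
    (((residue (RL k)).comp (ι k)).comp (kT k)) _ = (((residue (RL k)).comp (ι k)).comp (kT k)) _
  rw [← map_mul, div_mul_cancel₀ _ hs]

end Pool.Agent.TH215.CI
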