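import Mathlib

/-!
The Grothendieck group of finitely generated modules.
-/

set_option autoImplicit false

open TensorProduct

namespace Pool.Agent.TH215.CI

/-- A finitely generated `R`-module. -/
structure FGMod (R : Type) [CommRing R] : Type 1 where
  /-- the underlying type -/
  carrier : Type
  [grp : AddCommGroup carrier]
  [mod : Module R carrier]
  [fin : Module.Finite R carrier]

attribute [instance] FGMod.grp FGMod.mod FGMod.fin

/-- The relations `[B] - [A] - [C]` for the short exact sequences `0 → A → B → C → 0`. -/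
def gRel (R : Type) [CommRing R] : Set (FreeAbelianGroup (FGMod R)) :=
  {x | ∃ (A B C : FGMod R) (f : A.carrier →ₗ[R] B.carrier) (g : B.carrier →ₗ[R] C.carrier),
    Function.Injective f ∧ Function.Surjective g ∧ Function.Exact f g ∧
      x = FreeAbelianGroup.of B - FreeAbelianGroup.of A - FreeAbelianGroup.of C}

/-- The Grothendieck group `G(R)` of finitely generated `R`-modules. -/
abbrev GGroup (R : Type) [CommRing R] : Type 1 :=
  FreeAbelianGroup (FGMod R) ⧸ AddSubgroup.closure (gRel R)

/-- The class `[N]` in `G(R)` of a finitely generated `R`-module `N`. -/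
def gCls (R : Type) [CommRing R] (N : Type) [AddCommGroup N] [Module R N] [Module.Finite R N] :
    GGroup R :=
  QuotientAddGroup.mk (FreeAbelianGroup.of (⟨N⟩ : FGMod R))

/-- The reduced Grothendieck group `G(R) / ℤ [R]`. -/
abbrev GRed (R : Type) [CommRing R] : Type 1 :=
  GGroup R ⧸ AddSubgroup.zmultiples (gCls R R)

/-- The projection `G(R) → G(R) / ℤ [R]`. -/
def toGRed (R : Type) [CommRing R] : GGroup R →+ GRed R := QuotientAddGroup.mk' _

/-- The class of a finitely generated `R`-module `N` in the reduced Grothendieck group with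
rational coefficients `(G(R) / ℤ [R]) ⊗ ℚ`. -/
noncomputable def gRedQ (R : Type) [CommRing R] (N : Type) [AddCommGroup N] [Module R N]
    [Module.Finite R N] : ℚ ⊗[ℤ] GRed R :=
  (1 : ℚ) ⊗ₜ[ℤ] toGRed R (gCls R N)

section

variable {R : Type} [CommRing R] {A B C : Type} [AddCommGroup A] [Module R A] [Module.Finite R A]
  [AddCommGroup B] [Module R B] [Module.Finite R B] [AddCommGroup C] [Module R C]
  [Module.Finite R C]

theorem gCls_add (f : A →ₗ[R] B) (g : B →ₗ[R] C) (hf : Function.Injective f)
    (hg : Function.Surjective g) (h : Function.Exact f g) :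
    gCls R B = gCls R A + gCls R C := by
  have h1 : (FreeAbelianGroup.of (⟨B⟩ : FGMod R) - FreeAbelianGroup.of (⟨A⟩ : FGMod R) -
      FreeAbelianGroup.of (⟨C⟩ : FGMod R)) ∈ AddSubgroup.closure (gRel R) :=
    AddSubgroup.subset_closure ⟨⟨A⟩, ⟨B⟩, ⟨C⟩, f, g, hf, hg, h, rfl⟩
  have h2 := (QuotientAddGroup.eq_zero_iff _).2 h1
  have h3 : gCls R B - gCls R A - gCls R C = 0 := h2
  rw [sub_sub, sub_eq_zero] at h3
  exact h3

theorem gCls_zero (Z : Type) [AddCommGroup Z] [Module R Z] [Module.Finite R Z] [Subsingleton Z] :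
    gCls R Z = 0 := by
  have h := gCls_add (R := R) (0 : Z →ₗ[R] Z) (0 : Z →ₗ[R] Z) (Function.injective_of_subsingleton _)
    (fun x => ⟨x, Subsingleton.elim _ _⟩) (fun x => ⟨fun _ => ⟨x, Subsingleton.elim _ _⟩,
      fun _ => Subsingleton.elim _ _⟩)
  exact left_eq_add.1 h

theorem gCls_equiv (e : A ≃ₗ[R] B) : gCls R A = gCls R B := by
  have h := gCls_add (R := R) e.toLinearMap (0 : B →ₗ[R] PUnit) e.injective
    (fun x => ⟨0, Subsingleton.elim _ _⟩) (fun x => ⟨fun _ => e.surjective x,
      fun _ => Subsingleton.elim _ _⟩)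
  rw [gCls_zero (R := R) PUnit, add_zero] at h
  exact h.symm

theorem gRedQ_eq_zero (h : gCls R B = gCls R R) : gRedQ R B = 0 := by
  unfold gRedQ
  rw [h]
  have : toGRed R (gCls R R) = 0 :=
    (QuotientAddGroup.eq_zero_iff _).2 (AddSubgroup.mem_zmultiples _)
  rw [this, TensorProduct.tmul_zero]

end

section colon

variable {A : Type} [CommRing A] (B : Type) [CommRing B] [Algebra A B] [Module.Flat A B]

/-- the class of `B ⊗ A / J` -/
noncomputable def chi (J : Ideal A) : GGroup B := gCls B (B ⊗[A] (A ⧸ J))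

theorem chi_colon (J J' : Ideal A) (t : A) (h : ∀ f, t * f ∈ J ↔ f ∈ J') :
    chi B J = chi B J' + chi B (J ⊔ Ideal.span {t}) := by
  let m : A →ₗ[A] A := LinearMap.mulLeft A t
  let f : (A ⧸ J') →ₗ[A] (A ⧸ J) := Submodule.mapQ J' J m (fun x hx => (h x).2 hx)
  have hle : J ≤ J ⊔ Ideal.span {t} := le_sup_left
  let g : (A ⧸ J) →ₗ[A] (A ⧸ (J ⊔ Ideal.span {t})) := Submodule.factor hle
  have hf : Function.Injective f := by
    rw [← LinearMap.ker_eq_bot, LinearMap.ker_eq_bot']
    intro x hx
    obtain ⟨x, rfl⟩ := Submodule.mkQ_surjective _ x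
    have h1 : (Submodule.Quotient.mk (t * x) : A ⧸ J) = 0 := hx
    rw [Submodule.Quotient.mk_eq_zero] at h1
    rw [Submodule.mkQ_apply, Submodule.Quotient.mk_eq_zero]
    exact (h x).1 h1
  have hg : Function.Surjective g := Submodule.factor_surjective hle
  have hex : Function.Exact f g := by
    intro x
    obtain ⟨x, rfl⟩ := Submodule.mkQ_surjective _ x
    have h1 : g (J.mkQ x) = Submodule.Quotient.mk x := rfl
    rw [h1, Submodule.Quotient.mk_eq_zero]
    constructor
    · intro hx
      obtain ⟨y, hy, z, hz, rfl⟩ := Submodule.mem_sup.1 hx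
      obtain ⟨w, rfl⟩ := Ideal.mem_span_singleton'.1 hz
      refine ⟨J'.mkQ w, ?_⟩
      have h2 : f (J'.mkQ w) = J.mkQ (t * w) := rfl
      rw [h2, ← sub_eq_zero, ← map_sub, Submodule.mkQ_apply, Submodule.Quotient.mk_eq_zero]
      have : t * w - (y + w * t) = -y := by ring
      rw [this]
      exact Submodule.neg_mem _ hy
    · rintro ⟨y, hy⟩
      obtain ⟨y, rfl⟩ := Submodule.mkQ_surjective _ y
      have h2 : f (J'.mkQ y) = J.mkQ (t * y) := rfl
      rw [h2, ← sub_eq_zero, ← map_sub, Submodule.mkQ_apply, Submodule.Quotient.mk_eq_zero] at hy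
      have : x = t * y - (t * y - x) := by ring
      rw [this]
      exact Submodule.sub_mem _ (Ideal.mem_sup_right
        (Ideal.mul_mem_right _ _ (Ideal.mem_span_singleton_self t))) (Ideal.mem_sup_left hy)
  exact gCls_add (f.baseChange B) (g.baseChange B)
    (Module.Flat.lTensor_preserves_injective_linearMap _ hf)
    (LinearMap.lTensor_surjective _ hg) (Module.Flat.lTensor_exact B hex)

omit [Module.Flat A B] in
theorem gCls_map (J : Ideal A) (h : chi B J = 0) [IsNoetherianRing B] :
    gCls B (J.map (algebraMap A B)) = gCls B B := by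
  have e := (Algebra.TensorProduct.quotIdealMapEquivTensorQuot B J).toLinearEquiv
  have h1 := gCls_equiv e
  have h2 := gCls_add (R := B) (J.map (algebraMap A B)).subtype (J.map (algebraMap A B)).mkQ
    (Submodule.injective_subtype _) (Submodule.mkQ_surjective _) (LinearMap.exact_subtype_mkQ _)
  have h3 : gCls B (B ⧸ J.map (algebraMap A B)) = 0 := h1.trans h
  rw [h2, h3, add_zero]

end colon

end Pool.Agent.TH215.CI
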