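import Mathlib

/-!
General facts on the ideal `(a, b, c)` of a ring with `a v = b u`, `b v = c u`.
-/

set_option autoImplicit false

namespace Pool.Agent.TH215.CI

section gen

variable {R : Type} [CommRing R]

/-- `M` is locally free of rank `r` at the prime `p`. -/
theorem loc_free_of (I : Ideal R) (t s : R) (ht : t ∈ I) (hreg : ∀ f, t * f = 0 → f = 0)
    (hs : ∀ y ∈ I, ∃ r, s * y = t * r) (p : Ideal R) [p.IsPrime] (hsp : s ∉ p) :
    Nonempty (LocalizedModule p.primeCompl I ≃ₗ[Localization.AtPrime p]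
      (Fin 1 → Localization.AtPrime p)) := by
  let φ : R →ₗ[R] I :=
    { toFun := fun r => ⟨t * r, Ideal.mul_mem_right _ _ ht⟩
      map_add' := fun a b => Subtype.ext (mul_add _ _ _)
      map_smul' := fun a b => Subtype.ext (by
        change t * (a * b) = a * (t * b)
        ring) }
  have hφ : Function.Injective φ := by
    rw [← LinearMap.ker_eq_bot, LinearMap.ker_eq_bot']
    intro f hf
    exact hreg f (congrArg Subtype.val hf)
  let Φ := LocalizedModule.map p.primeCompl φ
  have hinj : Function.Injective Φ := LocalizedModule.map_injective p.primeCompl φ hφ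
  have hsurj : Function.Surjective Φ := by
    intro x
    induction x using LocalizedModule.induction_on with
    | h y d =>
      obtain ⟨r, hr⟩ := hs y.1 y.2
      refine ⟨LocalizedModule.mk r (⟨s, hsp⟩ * d), ?_⟩
      have h1 : Φ (LocalizedModule.mk r (⟨s, hsp⟩ * d)) =
        LocalizedModule.mk (φ r) (⟨s, hsp⟩ * d) := LocalizedModule.map_mk _ _ _ _
      rw [h1, LocalizedModule.mk_eq]
      refine ⟨1, ?_⟩
      have h2 : φ r = s • y := Subtype.ext hr.symm
      rw [h2]
      simp only [one_smul]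
      change (d : R) • (s • y) = (s * (d : R)) • y
      rw [smul_smul, mul_comm]
  let e : LocalizedModule p.primeCompl R ≃ₗ[Localization.AtPrime p]
      LocalizedModule p.primeCompl I := LinearEquiv.ofBijective Φ ⟨hinj, hsurj⟩
  let e0 : LocalizedModule p.primeCompl R ≃ₗ[Localization.AtPrime p] Localization.AtPrime p :=
    (IsLocalizedModule.linearEquiv p.primeCompl (LocalizedModule.mkLinearMap p.primeCompl R)
      (Algebra.linearMap R (Localization.AtPrime p))).extendScalarsOfIsLocalization p.primeCompl _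
  exact ⟨e.symm.trans (e0.trans (LinearEquiv.funUnique (Fin 1) _ _).symm)⟩

variable (a b c u v : R) (h1 : a * v = b * u) (h2 : b * v = c * u)

include h1 h2 in
/-- `u² (a, b, c) ≤ (a)` -/
theorem usq_mul {y : R} (hy : y ∈ Ideal.span {a, b, c}) : ∃ r, u ^ 2 * y = a * r := by
  rw [Ideal.mem_span_insert] at hy
  obtain ⟨r1, z, hz, rfl⟩ := hy
  rw [Ideal.mem_span_pair] at hz
  obtain ⟨r2, r3, rfl⟩ := hz
  refine ⟨u ^ 2 * r1 + u * v * r2 + v ^ 2 * r3, ?_⟩
  linear_combination (-(u * r2) - v * r3) * h1 + (-(u * r3)) * h2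

include h1 h2 in
/-- `v² (a, b, c) ≤ (c)` -/
theorem vsq_mul {y : R} (hy : y ∈ Ideal.span {a, b, c}) : ∃ r, v ^ 2 * y = c * r := by
  rw [Ideal.mem_span_insert] at hy
  obtain ⟨r1, z, hz, rfl⟩ := hy
  rw [Ideal.mem_span_pair] at hz
  obtain ⟨r2, r3, rfl⟩ := hz
  refine ⟨u ^ 2 * r1 + u * v * r2 + v ^ 2 * r3, ?_⟩
  linear_combination (v * r1) * h1 + (u * r1 + v * r2) * h2

lemma a_mem_span : a ∈ Ideal.span {a, b, c} := Ideal.subset_span (by simp)
lemma b_mem_span : b ∈ Ideal.span {a, b, c} := Ideal.subset_span (by simp)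
lemma c_mem_span : c ∈ Ideal.span {a, b, c} := Ideal.subset_span (by simp)

include h1 h2 in
/-- endomorphisms of `(a, b, c)` are multiplications -/
theorem end_mul (ha : ∀ f, a * f = 0 → f = 0) (hb : ∀ f, b * f = 0 → f = 0)
    (hy : ∀ f g, (c + u) * f = b * g → ∃ h, f = b * h)
    (φ : Module.End R (Ideal.span {a, b, c})) : ∃ r : R, ∀ x, φ x = r • x := by
  let A : Ideal.span {a, b, c} := ⟨a, a_mem_span a b c⟩
  let B : Ideal.span {a, b, c} := ⟨b, b_mem_span a b c⟩
  let C : Ideal.span {a, b, c} := ⟨c, c_mem_span a b c⟩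
  obtain ⟨α, hα⟩ : ∃ α, α = (φ A : R) := ⟨_, rfl⟩
  obtain ⟨β, hβ⟩ : ∃ β, β = (φ B : R) := ⟨_, rfl⟩
  obtain ⟨γ, hγ⟩ : ∃ γ, γ = (φ C : R) := ⟨_, rfl⟩
  have e1 : b * α = a * β := by
    have : b • A = a • B := Subtype.ext (mul_comm _ _)
    have := congrArg (fun x => (φ x : R)) this
    simp only [map_smul] at this
    rw [hα, hβ]
    exact this
  have e2 : c * α = a * γ := by
    have : c • A = a • C := Subtype.ext (mul_comm _ _)
    have := congrArg (fun x => (φ x : R)) this
    simp only [map_smul] at this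
    rw [hα, hγ]
    exact this
  obtain ⟨r, hr⟩ := usq_mul a b c u v h1 h2 (φ A).2
  rw [← hα] at hr
  -- `(c + u)^2 α = a σ`, `b α = a β`
  have e3 : (c + u) ^ 2 * α = a * ((c + 2 * u) * γ + r) := by
    linear_combination (c + 2 * u) * e2 + hr
  have e4 : (c + u) ^ 2 * β = b * ((c + 2 * u) * γ + r) := by
    have : a * ((c + u) ^ 2 * β - b * ((c + 2 * u) * γ + r)) = 0 := by
      linear_combination b * e3 - (c + u) ^ 2 * e1
    exact sub_eq_zero.1 (ha _ this)
  obtain ⟨s, hs⟩ := hy ((c + u) * β) _ (by rw [← mul_assoc, ← pow_two]; exact e4)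
  obtain ⟨ρ, hρ⟩ := hy β _ hs
  have e5 : α = a * ρ := by
    have : b * (α - a * ρ) = 0 := by
      rw [hρ] at e1
      linear_combination e1
    exact sub_eq_zero.1 (hb _ this)
  refine ⟨ρ, fun x => ?_⟩
  have e6 : a • x = (x : R) • A := Subtype.ext (mul_comm _ _)
  have e7 := congrArg (fun x => (φ x : R)) e6
  simp only [map_smul] at e7
  have e8 : a * (φ x : R) = (x : R) * α := by
    rw [hα]
    exact e7
  apply Subtype.ext
  change (φ x : R) = ρ * (x : R)
  have : a * ((φ x : R) - ρ * x) = 0 := by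
    rw [e5] at e8
    linear_combination e8
  exact sub_eq_zero.1 (ha _ this)

include h1 h2 in
/-- `(a, b, c)` is reflexive -/
theorem reflexive_I (ha : ∀ f, a * f = 0 → f = 0) (hI : (Ideal.span {a, b, c}).IsPrime)
    (hu : u ∉ Ideal.span {a, b, c}) : Module.IsReflexive R (Ideal.span {a, b, c}) := by
  let I := Ideal.span {a, b, c}
  let A : I := ⟨a, a_mem_span a b c⟩
  -- the map `ξ = u²/a`
  have hex : ∀ y : I, ∃ r, u ^ 2 * (y : R) = a * r := fun y => usq_mul a b c u v h1 h2 y.2
  choose ξ0 hξ0 using hex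
  have huniq : ∀ r s, a * r = a * s → r = s := fun r s h => by
    have : a * (r - s) = 0 := by linear_combination h
    exact sub_eq_zero.1 (ha _ this)
  let ξ : I →ₗ[R] R :=
    { toFun := ξ0
      map_add' := fun x y => by
        apply huniq
        rw [← hξ0, mul_add, ← hξ0, ← hξ0, ← mul_add]
        rfl
      map_smul' := fun r y => by
        apply huniq
        rw [← hξ0]
        change u ^ 2 * (r * (y : R)) = a * (r * ξ0 y)
        rw [mul_left_comm a, ← hξ0]
        ring }
  have key : ∀ (g : Module.Dual R I), a • g = g A • (I.subtype : Module.Dual R I) := by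
    intro g
    ext y
    change a * g y = g A * (y : R)
    have : a • y = (y : R) • A := Subtype.ext (mul_comm _ _)
    have h3 := congrArg g this
    rw [map_smul, map_smul] at h3
    rw [mul_comm (g A)]
    exact h3
  refine ⟨⟨?_, ?_⟩⟩
  · rw [← LinearMap.ker_eq_bot, LinearMap.ker_eq_bot']
    intro x hx
    have := LinearMap.congr_fun hx (I.subtype : Module.Dual R I)
    exact Subtype.ext this
  · intro F
    have h3 : a * F ξ = ξ A * F (I.subtype : Module.Dual R I) := by
      have := congrArg F (key ξ)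
      rw [map_smul, map_smul] at this
      exact this
    have h4 : ξ A = u ^ 2 := by
      apply huniq
      have : a * ξ A = u ^ 2 * a := (hξ0 A).symm
      rw [this, mul_comm]
    rw [h4] at h3
    have h5 : F (I.subtype : Module.Dual R I) ∈ I := by
      have h6 : u ^ 2 * F (I.subtype : Module.Dual R I) ∈ I := by
        rw [← h3]
        exact Ideal.mul_mem_right _ _ (a_mem_span a b c)
      exact (hI.mem_or_mem h6).resolve_left fun h => hu (hI.mem_of_pow_mem _ h)
    refine ⟨⟨_, h5⟩, ?_⟩
    ext g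
    change g ⟨F (I.subtype : Module.Dual R I), h5⟩ = F g
    apply huniq
    have h7 := congrArg F (key g)
    rw [map_smul, map_smul] at h7
    have h8 := LinearMap.congr_fun (key g) ⟨F (I.subtype : Module.Dual R I), h5⟩
    exact h8.trans h7.symm

/-- the ideal `(a, b, c)` is not free -/
theorem not_free_I [Nontrivial R] (x : R) (hx : x ∈ Ideal.span {a, b, c}) (hx0 : x ≠ 0)
    (hp : ∀ g ∈ Ideal.span {a, b, c}, ¬ (Ideal.span {a, b, c} ≤ Ideal.span {g})) :
    ¬ Module.Free R (Ideal.span {a, b, c}) := by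
  intro hfree
  let I := Ideal.span {a, b, c}
  let B := Module.Free.chooseBasis R I
  have hsub : Subsingleton (Module.Free.ChooseBasisIndex R I) := by
    refine ⟨fun i j => ?_⟩
    by_contra hij
    have h3 : ((B i : I) : R) • B j = ((B j : I) : R) • B i := Subtype.ext (mul_comm _ _)
    have h4 := congrArg (fun w => B.repr w j) h3
    simp only [map_smul, Finsupp.smul_apply, Module.Basis.repr_self, Finsupp.single_eq_same,
      smul_eq_mul, mul_one] at h4
    rw [Finsupp.single_eq_of_ne (Ne.symm hij), mul_zero] at h4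
    have h5 : B i = 0 := Subtype.ext h4
    exact B.ne_zero i h5
  have hne : Nonempty (Module.Free.ChooseBasisIndex R I) := by
    by_contra hemp
    rw [not_nonempty_iff] at hemp
    have : Subsingleton I := B.repr.toEquiv.subsingleton
    exact hx0 (congrArg Subtype.val (Subsingleton.elim (⟨x, hx⟩ : I) 0))
  obtain ⟨i⟩ := hne
  have huniq : Unique (Module.Free.ChooseBasisIndex R I) := ⟨⟨i⟩, fun j => Subsingleton.elim _ _⟩
  refine hp (B i) (B i).2 fun y hy => ?_
  rw [Ideal.mem_span_singleton']
  have h6 := B.sum_repr ⟨y, hy⟩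
  have h7 : ∀ j, j = i := fun j => Subsingleton.elim _ _
  have h8 : B.repr ⟨y, hy⟩ i • B i = ⟨y, hy⟩ := by
    have : (Finset.univ : Finset (Module.Free.ChooseBasisIndex R I)) = {i} := by
      ext j
      simp only [Finset.mem_univ, Finset.mem_singleton, true_iff]
      exact h7 j
    rw [this, Finset.sum_singleton] at h6
    exact h6
  exact ⟨B.repr ⟨y, hy⟩ i, congrArg Subtype.val h8⟩

end gen

end Pool.Agent.TH215.CI
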