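import Mathlib

/-!
The module `W = R³ / ⟨(a, b, c), (u², u v, v²)⟩` over a ring with `a v = b u`, `b v = c u`.
-/

set_option autoImplicit false

namespace Pool.Agent.TH215.CI

/-- The hypotheses on the elements `a, b, c, u, v` of a ring. -/
structure Hyp {R : Type} [CommRing R] (a b c u v : R) : Prop where
  av : a * v = b * u
  bv : b * v = c * u
  areg : ∀ f, a * f = 0 → f = 0
  B1 : ∀ f, u * f ∈ Ideal.span {a} → f ∈ Ideal.span {a, b}
  B2 : ∀ f, u * f ∈ Ideal.span {a, b} → f ∈ Ideal.span {a, b, c}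
  B3 : ∀ f, b * f ∈ Ideal.span {a, u, v} → f ∈ Ideal.span {a, u, v}
  B4 : ∀ f, c * f ∈ Ideal.span {a, b, u, v} → f ∈ Ideal.span {a, b, u, v}
  B5 : ∀ f, v * f ∈ Ideal.span {a, b, u} → f ∈ Ideal.span {a, b, u}
  B6 : ∀ f, v * f ∈ Ideal.span {a, b, c, u} → f ∈ Ideal.span {a, b, c, u}
  B7 : ∀ f, c * f ∈ Ideal.span {a, b, u} → f ∈ Ideal.span {a, b, u}

section gen2

variable {R : Type} [CommRing R] {a b c u v : R} (h : Hyp a b c u v)

lemma mem2 {R : Type} [CommRing R] {a b x : R} (hx : x ∈ Ideal.span {a, b}) :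
    ∃ s t, x = s * a + t * b := by
  obtain ⟨s, t, e⟩ := Ideal.mem_span_pair.1 hx
  exact ⟨s, t, e.symm⟩

lemma mem3 {R : Type} [CommRing R] {a b c x : R} (hx : x ∈ Ideal.span {a, b, c}) :
    ∃ s t r, x = s * a + t * b + r * c := by
  obtain ⟨s, y, hy, rfl⟩ := Ideal.mem_span_insert.1 hx
  obtain ⟨t, r, rfl⟩ := mem2 hy
  exact ⟨s, t, r, by ring⟩

lemma mem4 {R : Type} [CommRing R] {a b c d x : R} (hx : x ∈ Ideal.span {a, b, c, d}) :
    ∃ s t r q, x = s * a + t * b + r * c + q * d := by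
  obtain ⟨s, y, hy, rfl⟩ := Ideal.mem_span_insert.1 hx
  obtain ⟨t, r, q, rfl⟩ := mem3 hy
  exact ⟨s, t, r, q, by ring⟩

include h in
lemma Hyp.syz (x y : R) (e : a * x + u ^ 2 * y = 0) :
    ∃ t : Fin 3 → R, x = u ^ 2 * t 0 + u * v * t 1 + v ^ 2 * t 2 ∧
      y = -(a * t 0 + b * t 1 + c * t 2) := by
  have h1 : u * (u * y) ∈ Ideal.span {a} := by
    rw [Ideal.mem_span_singleton']
    exact ⟨-x, by linear_combination -e⟩
  obtain ⟨s1, s2, s3, hs⟩ := mem3 (h.B2 _ (h.B1 _ h1))
  refine ⟨![-s1, -s2, -s3], ?_, ?_⟩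
  · have : a * (x - (u ^ 2 * -s1 + u * v * -s2 + v ^ 2 * -s3)) = 0 := by
      rw [hs] at e
      linear_combination e + (u * s2 + v * s3) * h.av + u * s3 * h.bv
    exact sub_eq_zero.1 (h.areg _ this)
  · simp only [Matrix.cons_val_zero, Matrix.cons_val_one, Matrix.cons_val]
    rw [hs]
    ring

include h in
lemma Hyp.key (r s G H G' H' : R) (h1 : b * r + u * v * s = G * a + H * u ^ 2)
    (h2 : c * r + v ^ 2 * s = G' * a + H' * u ^ 2) :
    ∃ α β γ, a * r + u ^ 2 * s = a ^ 2 * α + a * u ^ 2 * β + u ^ 4 * γ := by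
  have sub : ∀ {s t : Set R}, s ⊆ t → Ideal.span s ≤ Ideal.span t := fun h => Ideal.span_mono h
  -- step 1
  have m1 : b * r ∈ Ideal.span {a, u, v} := by
    have : b * r = G * a + (H * u) * u + (-(u * s)) * v := by linear_combination h1
    rw [this]
    exact Ideal.add_mem _ (Ideal.add_mem _ (Ideal.mul_mem_left _ _ (Ideal.subset_span (by simp)))
      (Ideal.mul_mem_left _ _ (Ideal.subset_span (by simp))))
      (Ideal.mul_mem_left _ _ (Ideal.subset_span (by simp)))
  obtain ⟨ra, ru, rv, er⟩ := mem3 (h.B3 _ m1)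
  -- step 2
  have m2 : u * (c * rv + v * s - u * H) ∈ Ideal.span {a} := by
    rw [Ideal.mem_span_singleton']
    refine ⟨G - b * ra - v * ru, ?_⟩
    rw [er] at h1
    linear_combination - h1 - ru * h.av + rv * h.bv
  obtain ⟨x1, x2, ex⟩ := mem2 (h.B1 _ m2)
  have m3 : c * rv ∈ Ideal.span {a, b, u, v} := by
    have : c * rv = x1 * a + x2 * b + H * u + (-s) * v := by linear_combination ex
    rw [this]
    exact Ideal.add_mem _ (Ideal.add_mem _ (Ideal.add_mem _
      (Ideal.mul_mem_left _ _ (Ideal.subset_span (by simp)))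
      (Ideal.mul_mem_left _ _ (Ideal.subset_span (by simp))))
      (Ideal.mul_mem_left _ _ (Ideal.subset_span (by simp))))
      (Ideal.mul_mem_left _ _ (Ideal.subset_span (by simp)))
  obtain ⟨α1, β1, γ1, ρ, erv⟩ := mem4 (h.B4 _ m3)
  have m4 : v * (c * ρ + s) ∈ Ideal.span {a, b, u} := by
    have : v * (c * ρ + s) = (x1 - c * α1) * a + (x2 - c * β1) * b + (H - c * γ1) * u := by
      rw [erv] at ex
      linear_combination ex
    rw [this]
    exact Ideal.add_mem _ (Ideal.add_mem _ (Ideal.mul_mem_left _ _ (Ideal.subset_span (by simp)))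
      (Ideal.mul_mem_left _ _ (Ideal.subset_span (by simp))))
      (Ideal.mul_mem_left _ _ (Ideal.subset_span (by simp)))
  obtain ⟨α2, β2, γ2, es⟩ := mem3 (h.B5 _ m4)
  -- step 3
  have m5 : u * (c * (ru + c * β1 + v * γ1 + v * β2) + v ^ 2 * γ2 - u * H') ∈ Ideal.span {a} := by
    rw [Ideal.mem_span_singleton']
    refine ⟨G' - c * ra - c * v * α1 - v ^ 2 * α2, ?_⟩
    rw [er, erv] at h2
    linear_combination - h2 + v ^ 2 * es + (c * β1 + v * β2) * h.bv
  obtain ⟨y1, y2, ey⟩ := mem2 (h.B1 _ m5)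
  have m6 : v * (v * γ2) ∈ Ideal.span {a, b, c, u} := by
    have : v * (v * γ2) = y1 * a + y2 * b + (-(ru + c * β1 + v * γ1 + v * β2)) * c + H' * u := by
      linear_combination ey
    rw [this]
    exact Ideal.add_mem _ (Ideal.add_mem _ (Ideal.add_mem _
      (Ideal.mul_mem_left _ _ (Ideal.subset_span (by simp)))
      (Ideal.mul_mem_left _ _ (Ideal.subset_span (by simp))))
      (Ideal.mul_mem_left _ _ (Ideal.subset_span (by simp))))
      (Ideal.mul_mem_left _ _ (Ideal.subset_span (by simp)))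
  obtain ⟨α3, β3, σ, γ3, eγ⟩ := mem4 (h.B6 _ (h.B6 _ m6))
  have m7 : c * (ru + c * β1 + v * γ1 + v * β2 + v ^ 2 * σ) ∈ Ideal.span {a, b, u} := by
    have : c * (ru + c * β1 + v * γ1 + v * β2 + v ^ 2 * σ) =
        (y1 - v ^ 2 * α3) * a + (y2 - v ^ 2 * β3) * b + (H' - v ^ 2 * γ3) * u := by
      rw [eγ] at ey
      linear_combination ey
    rw [this]
    exact Ideal.add_mem _ (Ideal.add_mem _ (Ideal.mul_mem_left _ _ (Ideal.subset_span (by simp)))
      (Ideal.mul_mem_left _ _ (Ideal.subset_span (by simp))))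
      (Ideal.mul_mem_left _ _ (Ideal.subset_span (by simp)))
  obtain ⟨α4, β4, γ4, e4⟩ := mem3 (h.B7 _ m7)
  refine ⟨ra + v * α1 + u * α4 + v * β4, γ4 + α2 + u * α3 + v * β3, γ3, ?_⟩
  linear_combination a * er + a * v * erv + u ^ 2 * es + (a * u) * e4 + u ^ 3 * eγ +
    (-a * β4 - β2 * u + ρ * v - u * σ * v - β3 * u ^ 2) * h.av +
    (a * β1 + ρ * u - u ^ 2 * σ) * h.bv

/-- the vector `(a, b, c)` -/
def pv1 (a b c : R) : Fin 3 → R := ![a, b, c]

/-- the vector `(u², u v, v²)` -/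
def pv2 (u v : R) : Fin 3 → R := ![u ^ 2, u * v, v ^ 2]

/-- the submodule `⟨(a, b, c), (u², u v, v²)⟩` of `R³` -/
def KW (a b c u v : R) : Submodule R (Fin 3 → R) := Submodule.span R {pv1 a b c, pv2 u v}

include h in
lemma Hyp.minor (i j : Fin 3) : pv1 a b c i * pv2 u v j = pv1 a b c j * pv2 u v i := by
  have h1 := h.av
  have h2 := h.bv
  fin_cases i <;> fin_cases j <;> simp [pv1, pv2]
  · linear_combination u * h1
  · linear_combination v * h1 + u * h2
  · linear_combination -u * h1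
  · linear_combination v * h2
  · linear_combination -v * h1 - u * h2
  · linear_combination -v * h2

include h in
/-- exactness of `W³ → W² → W³` -/
theorem Hyp.E2 (w1 w2 : (Fin 3 → R) ⧸ KW a b c u v)
    (hw : ∀ i, pv1 a b c i • w1 + pv2 u v i • w2 = 0) :
    ∃ t : Fin 3 → (Fin 3 → R) ⧸ KW a b c u v, w1 = ∑ i, pv2 u v i • t i ∧
      w2 = - ∑ i, pv1 a b c i • t i := by
  obtain ⟨r, rfl⟩ := Submodule.mkQ_surjective _ w1
  obtain ⟨s, rfl⟩ := Submodule.mkQ_surjective _ w2
  have h1 : ∀ i, ∃ G H : R, G • pv1 a b c + H • pv2 u v =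
      pv1 a b c i • r + pv2 u v i • s := by
    intro i
    have := hw i
    rw [← map_smul, ← map_smul, ← map_add, Submodule.mkQ_apply, Submodule.Quotient.mk_eq_zero,
      KW, Submodule.mem_span_pair] at this
    exact this
  choose G H hGH using h1
  have h2 : ∀ i j, G i * pv1 a b c j + H i * pv2 u v j =
      pv1 a b c i * r j + pv2 u v i * s j := by
    intro i j
    have := congrFun (hGH i) j
    simpa using this
  obtain ⟨α, β, γ, key⟩ := h.key (r 0) (s 0) (G 1) (H 1) (G 2) (H 2)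
    (by have := h2 1 0; simp [pv1, pv2] at this; linear_combination -this)
    (by have := h2 2 0; simp [pv1, pv2] at this; linear_combination -this)
  have h3 : ∀ j, a * (r j - α * pv1 a b c j - β * pv2 u v j) +
      u ^ 2 * (s j - γ * pv2 u v j) = 0 := by
    intro j
    apply h.areg
    have e1 := h2 0 j
    have e2 := h2 0 0
    have e3 := h.minor 0 j
    simp only [pv1, pv2, Matrix.cons_val_zero] at e1 e2 e3 ⊢
    linear_combination -a * e1 + ![a, b, c] j * (e2 + key) + (H 0 - a * β - u ^ 2 * γ) * e3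
  have h4 : ∀ j, ∃ t : Fin 3 → R, r j - α * pv1 a b c j - β * pv2 u v j =
      u ^ 2 * t 0 + u * v * t 1 + v ^ 2 * t 2 ∧
      s j - γ * pv2 u v j = -(a * t 0 + b * t 1 + c * t 2) := fun j => h.syz _ _ (h3 j)
  choose t ht1 ht2 using h4
  have z1 : (KW a b c u v).mkQ (pv1 a b c) = 0 := by
    rw [Submodule.mkQ_apply, Submodule.Quotient.mk_eq_zero]
    exact Submodule.subset_span (by simp)
  have z2 : (KW a b c u v).mkQ (pv2 u v) = 0 := by
    rw [Submodule.mkQ_apply, Submodule.Quotient.mk_eq_zero]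
    exact Submodule.subset_span (by simp)
  refine ⟨fun i => (KW a b c u v).mkQ (fun j => t j i), ?_, ?_⟩
  · have e : r = α • pv1 a b c + β • pv2 u v + ∑ i, pv2 u v i • (fun j => t j i) := by
      ext j
      simp only [Fin.sum_univ_three, Pi.add_apply, Pi.smul_apply, smul_eq_mul]
      have := ht1 j
      simp only [pv1, pv2, Matrix.cons_val_zero, Matrix.cons_val_one, Matrix.cons_val] at this ⊢
      linear_combination this
    rw [e, map_add, map_add, map_smul, map_smul, z1, z2, smul_zero, smul_zero, zero_add,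
      zero_add, map_sum]
    simp only [map_smul]
  · have e : s = γ • pv2 u v + - ∑ i, pv1 a b c i • (fun j => t j i) := by
      ext j
      simp only [Fin.sum_univ_three, Pi.add_apply, Pi.smul_apply, smul_eq_mul, Pi.neg_apply]
      have := ht2 j
      simp only [pv1, pv2, Matrix.cons_val_zero, Matrix.cons_val_one, Matrix.cons_val] at this ⊢
      linear_combination this
    rw [e, map_add, map_smul, z2, smul_zero, zero_add, map_neg, map_sum]
    simp only [map_smul]

end gen2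

end Pool.Agent.TH215.CI
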