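import Pool.Agent.TH215.CI.T2
import Pool.Agent.TH215.CI.G0

/-!
The class of `T / (a, b, c)` in the Grothendieck group of a flat `T`-algebra is zero.
-/

set_option autoImplicit false

namespace Pool.Agent.TH215.CI

open T

theorem chi_I {k : Type} [Field k] (B : Type) [CommRing B] [Algebra (T k) B]
    [Module.Flat (T k) B] : chi B (IA k ⊔ IB k ⊔ IC k) = 0 := by
  have h1 := chi_colon B ⊥ (IU k ⊔ IV k) Δ colon1
  have h2 := chi_colon B ⊥ (ID k) u colon2
  have h3 := chi_colon B (IU k) (IA k ⊔ IB k ⊔ IU k) v colon3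
  have h4 := chi_colon B ⊥ ⊥ (a : T k) colon4
  have h5 := chi_colon B (IA k) (IA k ⊔ IU k) b colon5
  have h6 := chi_colon B (IA k ⊔ IB k) (IA k ⊔ IB k ⊔ IC k) u colon6
  have h7 := chi_colon B (IA k ⊔ IU k) (IA k ⊔ IB k ⊔ IU k) v colon7
  have h8 := chi_colon B (IU k ⊔ IV k) (IU k ⊔ IV k) a colon8
  rw [bot_sup_eq] at h1 h2 h4
  have e1 : Ideal.span {(Δ : T k)} = ID k := rfl
  have e2 : Ideal.span {(u : T k)} = IU k := rfl
  have e3 : Ideal.span {(v : T k)} = IV k := rfl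
  have e4 : Ideal.span {(a : T k)} = IA k := rfl
  have e5 : Ideal.span {(b : T k)} = IB k := rfl
  rw [e1] at h1
  rw [e2] at h2 h6
  rw [e3] at h3 h7
  rw [e4] at h4 h8
  rw [e5] at h5
  have e6 : IU k ⊔ IV k ⊔ IA k = IA k ⊔ IU k ⊔ IV k := by
    rw [sup_comm, sup_assoc]
  rw [e6] at h8
  generalize chi B (IA k ⊔ IU k ⊔ IV k) = q1 at *
  generalize chi B (IA k ⊔ IB k ⊔ IU k) = qF at *
  generalize chi B (IA k ⊔ IB k ⊔ IC k) = qI at *
  generalize chi B (IU k ⊔ IV k) = qK at *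
  generalize chi B (IA k ⊔ IU k) = q2 at *
  generalize chi B (IA k ⊔ IB k) = q3 at *
  generalize chi B (⊥ : Ideal (T k)) = q0 at *
  generalize chi B (ID k) = qD at *
  generalize chi B (IU k) = qU at *
  generalize chi B (IA k) = qA at *
  -- h1 : q0 = qK + qD, h2 : q0 = qD + qU, h3 : qU = qF + qK, h4 : q0 = q0 + qA
  have g1 : qA = 0 := left_eq_add.1 h4
  have g2 : q1 = 0 := left_eq_add.1 h8
  have g3 : qU = qK := by
    have : qD + qU = qD + qK := by rw [← h2, h1, add_comm]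
    exact add_left_cancel this
  have g4 : qF = 0 := by
    rw [g3] at h3
    exact right_eq_add.1 h3
  rw [h7, h6, g1, g2, g4, add_zero, zero_add, add_zero] at h5
  exact h5.symm

end Pool.Agent.TH215.CI
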