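import Pool.Agent.TH215.CI.K
import Pool.Agent.TH215.CI.Gen

/-!
The localization of `T = k[a, b, c, u, v] / (a v - b u, b v - c u)` at the origin.
-/

set_option autoImplicit false

open RingTheory.Sequence

namespace Pool.Agent.TH215.CI

section reg

/-- weakly regular sequences in a ring -/
theorem weaklyRegular_of {A : Type} [CommRing A] (rs : List A)
    (h : ∀ i (hi : i < rs.length), ∀ f, rs[i] * f ∈ Ideal.ofList (rs.take i) →
      f ∈ Ideal.ofList (rs.take i)) : IsWeaklyRegular A rs := by
  refine ⟨fun i hi => ?_⟩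
  rw [isSMulRegular_iff_right_eq_zero_of_smul]
  intro x hx
  obtain ⟨x, rfl⟩ := Submodule.mkQ_surjective _ x
  rw [← map_smul, Submodule.mkQ_apply, Submodule.Quotient.mk_eq_zero] at hx
  rw [Submodule.mkQ_apply, Submodule.Quotient.mk_eq_zero]
  have e : (Ideal.ofList (rs.take i) • ⊤ : Submodule A A) = Ideal.ofList (rs.take i) := by
    rw [smul_eq_mul, Ideal.mul_top]
  rw [e] at hx ⊢
  exact h i hi x hx

open MvPolynomial in
/-- monomial ideals -/
theorem mono_colon {σ : Type} {k : Type} [Field k] (G : Set (σ →₀ ℕ)) (m : σ →₀ ℕ)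
    (hG : ∀ g ∈ G, ∀ i, g i = 0 ∨ m i = 0) (f : MvPolynomial σ k)
    (h : monomial m (1 : k) * f ∈ Ideal.span ((fun s => monomial s (1 : k)) '' G)) :
    f ∈ Ideal.span ((fun s => monomial s (1 : k)) '' G) := by
  rw [mem_ideal_span_monomial_image] at h ⊢
  intro ξ hξ
  have h1 : m + ξ ∈ (monomial m (1 : k) * f).support := by
    rw [mem_support_iff, coeff_monomial_mul, one_mul]
    exact mem_support_iff.1 hξ
  obtain ⟨g, hg, hle⟩ := h _ h1
  refine ⟨g, hg, fun i => ?_⟩
  have h2 := hle i
  rcases hG g hg i with h3 | h3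
  · rw [h3]; exact Nat.zero_le _
  · rw [Finsupp.add_apply, h3, zero_add] at h2
    exact h2

open MvPolynomial in
theorem regP (k : Type) [Field k] : IsWeaklyRegular (P k) ([pz, py, px] : List (P k)) := by
  refine weaklyRegular_of _ ?_
  have hz : (pz : P k) = monomial (Finsupp.single 2 1) 1 := rfl
  have hy : (py : P k) = monomial (Finsupp.single 1 1) 1 := rfl
  have hx : (px : P k) = monomial (Finsupp.single 0 1) 1 := rfl
  intro i hi f
  match i, hi with
  | 0, _ =>
    intro h
    have e : Ideal.ofList (([pz, py, px] : List (P k)).take 0) =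
        Ideal.span ((fun s => monomial s (1 : k)) '' (∅ : Set (Fin 3 →₀ ℕ))) := by
      simp
    rw [e] at h ⊢
    refine mono_colon _ (Finsupp.single 2 1) (by simp) f h
  | 1, _ =>
    intro h
    have e : Ideal.ofList (([pz, py, px] : List (P k)).take 1) =
        Ideal.span ((fun s => monomial s (1 : k)) '' ({Finsupp.single 2 1} : Set (Fin 3 →₀ ℕ))) := by
      rw [Set.image_singleton, ← hz]
      simp [Ideal.ofList]
    rw [e] at h ⊢
    refine mono_colon _ (Finsupp.single 1 1) ?_ f h
    rintro _ rfl i
    fin_cases i <;> simp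
  | 2, _ =>
    intro h
    have e : Ideal.ofList (([pz, py, px] : List (P k)).take 2) =
        Ideal.span ((fun s => monomial s (1 : k)) ''
          ({Finsupp.single 2 1, Finsupp.single 1 1} : Set (Fin 3 →₀ ℕ))) := by
      rw [Set.image_pair, ← hz, ← hy]
      simp only [Ideal.ofList, List.take_succ_cons, List.take_zero]
      congr 1
      ext; simp
    rw [e] at h ⊢
    refine mono_colon _ (Finsupp.single 0 1) ?_ f h
    rintro _ (rfl | rfl) i <;> fin_cases i <;> simp

end reg

open T

variable (k : Type) [Field k]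

/-- evaluation at the origin -/
noncomputable def evT : T k →+* k := (MvPolynomial.constantCoeff).comp εK

/-- the maximal ideal of the origin -/
noncomputable def mT : Ideal (T k) := RingHom.ker (evT k)

instance : (mT k).IsPrime := RingHom.ker_isPrime _

variable {k}

lemma mem_mT {f : T k} : f ∈ mT k ↔ MvPolynomial.constantCoeff f.e0 = 0 := Iff.rfl

lemma sub_const_mem' (s : P k) :
    s - MvPolynomial.C (MvPolynomial.constantCoeff s) ∈ Ideal.span (Set.range MvPolynomial.X) := by
  induction s using MvPolynomial.induction_on with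
  | C c => simp
  | add p q hp hq =>
    have : p + q - MvPolynomial.C (MvPolynomial.constantCoeff (p + q)) =
        (p - MvPolynomial.C (MvPolynomial.constantCoeff p)) +
        (q - MvPolynomial.C (MvPolynomial.constantCoeff q)) := by
      simp only [map_add]
      ring
    rw [this]
    exact Ideal.add_mem _ hp hq
  | mul_X p i _ =>
    simp only [map_mul, MvPolynomial.constantCoeff_X, mul_zero, map_zero, sub_zero]
    exact Ideal.mul_mem_left _ _ (Ideal.subset_span ⟨i, rfl⟩)

lemma mT_le : mT k ≤ Ideal.span {a, b, c, u, v} := by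
  intro f hf
  rw [mem_mT] at hf
  have ha : (a : T k) ∈ Ideal.span {a, b, c, u, v} := Ideal.subset_span (by simp)
  have hb : (b : T k) ∈ Ideal.span {a, b, c, u, v} := Ideal.subset_span (by simp)
  have hc : (c : T k) ∈ Ideal.span {a, b, c, u, v} := Ideal.subset_span (by simp)
  have hu : (u : T k) ∈ Ideal.span {a, b, c, u, v} := Ideal.subset_span (by simp)
  have hv : (v : T k) ∈ Ideal.span {a, b, c, u, v} := Ideal.subset_span (by simp)
  have hx : algebraMap (P k) (T k) px ∈ Ideal.span {a, b, c, u, v} := by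
    have : algebraMap (P k) (T k) px = a - v := by ext1 <;> simp [a, v]
    rw [this]
    exact Ideal.sub_mem _ ha hv
  have hy : algebraMap (P k) (T k) py ∈ Ideal.span {a, b, c, u, v} := by
    have : algebraMap (P k) (T k) py = c + u := by ext1 <;> simp [c, u]
    rw [this]
    exact Ideal.add_mem _ hc hu
  have hz : algebraMap (P k) (T k) pz ∈ Ideal.span {a, b, c, u, v} := by
    have : algebraMap (P k) (T k) pz = b := by ext1 <;> simp [b]
    rw [this]
    exact hb
  have h0 : algebraMap (P k) (T k) f.e0 ∈ Ideal.span {a, b, c, u, v} := by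
    have h1 : Ideal.span (Set.range MvPolynomial.X) ≤
        (Ideal.span {a, b, c, u, v}).comap (algebraMap (P k) (T k)) := by
      rw [Ideal.span_le]
      rintro _ ⟨i, rfl⟩
      fin_cases i
      · exact hx
      · exact hy
      · exact hz
    have h2 := sub_const_mem' f.e0
    rw [hf, map_zero, sub_zero] at h2
    exact h1 h2
  have e : f = algebraMap (P k) (T k) f.e0 + (algebraMap _ (T k) f.e1 +
      algebraMap _ (T k) f.e3 * v) * u + algebraMap _ (T k) f.e2 * v := by
    ext1 <;> simp [u, v]
  rw [e]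
  exact Ideal.add_mem _ (Ideal.add_mem _ h0 (Ideal.mul_mem_left _ _ hu)) (Ideal.mul_mem_left _ _ hv)

lemma le_mT : Ideal.span {a, b, c, u, v} ≤ mT k := by
  rw [Ideal.span_le]
  rintro _ (rfl | rfl | rfl | rfl | rfl) <;> rw [SetLike.mem_coe, mem_mT] <;>
    simp [a, b, c, u, v, px, py, pz]

variable (k)

/-- The local ring `R` of `k[a, b, c, u, v] / (a v - b u, b v - c u)` at the origin. -/
abbrev RL : Type := Localization.AtPrime (mT k)

instance : Module.Flat (T k) (RL k) := IsLocalization.flat (RL k) (mT k).primeCompl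

/-- the map to the local ring -/
noncomputable def ι : T k →+* RL k := algebraMap (T k) (RL k)

/-- the ideal `(a, b, c)` of the local ring -/
noncomputable def NI : Ideal (RL k) := Ideal.span {ι k a, ι k b, ι k c}

lemma NI_eq : NI k = (IA k ⊔ IB k ⊔ IC k).map (algebraMap (T k) (RL k)) := by
  rw [Ideal.map_sup, Ideal.map_sup, IA, IB, IC, Ideal.map_span, Ideal.map_span, Ideal.map_span,
    Set.image_singleton, Set.image_singleton, Set.image_singleton, NI,
    Ideal.span_insert, Ideal.span_insert, sup_assoc]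
  rfl

theorem cls_NI : gCls (RL k) (NI k) = gCls (RL k) (RL k) := by
  have h := gCls_map (RL k) (IA k ⊔ IB k ⊔ IC k) (chi_I (RL k))
  have e : NI k ≃ₗ[RL k] ((IA k ⊔ IB k ⊔ IC k).map (algebraMap (T k) (RL k)) : Ideal (RL k)) :=
    LinearEquiv.ofEq _ _ (NI_eq k)
  rw [gCls_equiv e]
  exact h

theorem regR : IsRegular (RL k) [ι k (algebraMap (P k) (T k) pz), ι k (algebraMap (P k) (T k) py),
    ι k (algebraMap (P k) (T k) px)] := by
  have h1 := (regP k).of_flat (S := T k)
  exact h1.isRegular_of_isLocalization_of_mem (RL k) (mT k) (by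
    intro r hr
    simp only [List.map_cons, List.map_nil, List.mem_cons, List.not_mem_nil, or_false] at hr
    rcases hr with rfl | rfl | rfl <;> rw [mem_mT] <;> simp [px, py, pz])

lemma reg_loc (t : T k) (h : ∀ f, t * f = 0 → f = 0) (f : RL k) (hf : ι k t * f = 0) : f = 0 := by
  have h1 : t ∈ nonZeroDivisors (T k) := by
    rw [mem_nonZeroDivisors_iff]
    exact ⟨fun x hx => h x hx, fun x hx => h x (by rw [mul_comm]; exact hx)⟩
  have h2 : ι k t ∈ nonZeroDivisors (RL k) :=
    IsLocalization.map_nonZeroDivisors_le (mT k).primeCompl (RL k) ⟨t, h1, rfl⟩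
  exact (mem_nonZeroDivisors_iff.1 h2).1 f hf

lemma b_reg (f : T k) (h : b * f = 0) : f = 0 := by
  have h0 := congrArg T.e0 h
  have h1 := congrArg T.e1 h
  have h2 := congrArg T.e2 h
  have h3 := congrArg T.e3 h
  simp [b] at h0 h1 h2 h3
  ext1
  · exact h0.resolve_left pz_ne
  · exact h1.resolve_left pz_ne
  · exact h2.resolve_left pz_ne
  · exact h3.resolve_left pz_ne

lemma rel1 : ι k a * ι k v = ι k b * ι k u := by rw [← map_mul, av, map_mul]
lemma rel2 : ι k b * ι k v = ι k c * ι k u := by rw [← map_mul, bv, map_mul]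

end Pool.Agent.TH215.CI
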