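import Pool.Agent.TH215.CI.Loc

/-!
The module `N = (a, b, c)` over the local ring `R = RL k`.
-/

set_option autoImplicit false

open RingTheory.Sequence

namespace Pool.Agent.TH215.CI

open T

variable (k : Type) [Field k]

lemma ι_cu : ι k c + ι k u = ι k (algebraMap (P k) (T k) py) := by
  rw [← map_add]
  congr 1
  ext1 <;> simp [c, u]

lemma ι_b : ι k b = ι k (algebraMap (P k) (T k) pz) := by
  congr 1

lemma hyR (f g : RL k) (h : (ι k c + ι k u) * f = ι k b * g) : ∃ h, f = ι k b * h := by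
  rw [ι_cu, ι_b] at h
  rw [ι_b]
  have h1 : IsSMulRegular (RL k ⧸ (Ideal.ofList [ι k (algebraMap (P k) (T k) pz)] • ⊤ :
      Submodule (RL k) (RL k))) (ι k (algebraMap (P k) (T k) py)) :=
    (regR k).regular_mod_prev 1 (by simp)
  rw [isSMulRegular_iff_right_eq_zero_of_smul] at h1
  have e : (Ideal.ofList [ι k (algebraMap (P k) (T k) pz)] • ⊤ : Submodule (RL k) (RL k)) =
    Ideal.span {ι k (algebraMap (P k) (T k) pz)} := by
      rw [Ideal.ofList_singleton, smul_eq_mul, Ideal.mul_top]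
  have h2 := h1 (Submodule.Quotient.mk f) (by
    rw [← Submodule.Quotient.mk_smul, Submodule.Quotient.mk_eq_zero, e, smul_eq_mul, h]
    exact Ideal.mul_mem_right _ _ (Ideal.mem_span_singleton_self _))
  rw [Submodule.Quotient.mk_eq_zero, e, Ideal.mem_span_singleton] at h2
  exact h2

lemma ιa_reg (f : RL k) (h : ι k a * f = 0) : f = 0 := reg_loc k a a_reg f h
lemma ιb_reg (f : RL k) (h : ι k b * f = 0) : f = 0 := reg_loc k b (b_reg k) f h
lemma ιc_reg (f : RL k) (h : ι k c * f = 0) : f = 0 := reg_loc k c c_reg f h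

lemma ker_I : RingHom.ker (εI : T k →+* Pq k) = IA k ⊔ IB k ⊔ IC k := by
  ext f
  rw [RingHom.mem_ker, ker_εI]

lemma prime_I : (IA k ⊔ IB k ⊔ IC k).IsPrime := by
  rw [← ker_I]
  exact RingHom.ker_isPrime _

lemma I_le : IA k ⊔ IB k ⊔ IC k ≤ mT k := by
  have : IA k ⊔ IB k ⊔ IC k ≤ Ideal.span {a, b, c, u, v} := by
    rw [sup_le_iff, sup_le_iff, IA, IB, IC, Ideal.span_singleton_le_iff_mem,
        Ideal.span_singleton_le_iff_mem, Ideal.span_singleton_le_iff_mem]
    refine ⟨⟨?_, ?_⟩, ?_⟩ <;> exact Ideal.subset_span (by simp)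
  exact this.trans le_mT

lemma I_disj : Disjoint ((mT k).primeCompl : Set (T k)) (IA k ⊔ IB k ⊔ IC k : Ideal (T k)) := by
  rw [Set.disjoint_left]
  intro x hx hx'
  exact hx (I_le k hx')

lemma NI_prime : (NI k).IsPrime := by
  rw [NI_eq]
  exact IsLocalization.isPrime_of_isPrime_disjoint (mT k).primeCompl (RL k) _ (prime_I k) (I_disj k)

lemma ιu_notMem : ι k u ∉ NI k := by
  intro h
  rw [NI_eq] at h
  have h1 : (u : T k) ∈ ((IA k ⊔ IB k ⊔ IC k).map (algebraMap (T k) (RL k))).under (T k) := h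
  rw [IsLocalization.under_map_of_isPrime_disjoint (mT k).primeCompl (RL k) (prime_I k)
    (I_disj k), ← ker_εI] at h1
  refine mq_y (k := k) ?_
  simpa [εI, u] using h1

instance : Module.IsReflexive (RL k) (NI k) :=
  reflexive_I (ι k a) (ι k b) (ι k c) (ι k u) (ι k v) (rel1 k) (rel2 k) (ιa_reg k)
    (NI_prime k) (ιu_notMem k)

/-- `Hom(N, N) = R` -/
theorem end_equiv : Nonempty ((NI k →ₗ[RL k] NI k) ≃ₗ[RL k] RL k) := by
  refine ⟨(LinearEquiv.ofBijective (LinearMap.lsmul (RL k) (NI k)) ⟨?_, ?_⟩).symm⟩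
  · rw [injective_iff_map_eq_zero]
    intro r hr
    have h1 := LinearMap.congr_fun hr ⟨ι k a, a_mem_span _ _ _⟩
    have h2 : r * ι k a = 0 := congrArg Subtype.val h1
    rw [mul_comm] at h2
    exact ιa_reg k r h2
  · intro φ
    obtain ⟨r, hr⟩ := end_mul (ι k a) (ι k b) (ι k c) (ι k u) (ι k v) (rel1 k) (rel2 k)
      (ιa_reg k) (ιb_reg k) (hyR k) φ
    exact ⟨r, LinearMap.ext fun x => (hr x).symm⟩

/-- local freeness on the punctured spectrum -/
theorem loc_free (p : Ideal (RL k)) [p.IsPrime] (hp : p ≠ IsLocalRing.maximalIdeal (RL k)) :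
    Nonempty (LocalizedModule p.primeCompl (NI k) ≃ₗ[Localization.AtPrime p]
      (Fin 1 → Localization.AtPrime p)) := by
  by_cases ha : ι k a ∈ p
  · by_cases hb : ι k b ∈ p
    · by_cases hc : ι k c ∈ p
      · by_cases hu : ι k u ∈ p
        · by_cases hv : ι k v ∈ p
          · exfalso
            apply hp
            apply le_antisymm (IsLocalRing.le_maximalIdeal (Ideal.IsPrime.ne_top ‹_›))
            rw [← Localization.AtPrime.map_eq_maximalIdeal, Ideal.map_le_iff_le_comap]
            refine mT_le.trans ?_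
            rw [Ideal.span_le]
            rintro _ (rfl | rfl | rfl | rfl | rfl)
            · exact ha
            · exact hb
            · exact hc
            · exact hu
            · exact hv
          · exact loc_free_of (NI k) (ι k c) (ι k v ^ 2) (c_mem_span _ _ _) (ιc_reg k)
              (fun y hy => vsq_mul _ _ _ _ _ (rel1 k) (rel2 k) hy) p
              (fun h => hv (Ideal.IsPrime.mem_of_pow_mem ‹_› _ h))
        · exact loc_free_of (NI k) (ι k a) (ι k u ^ 2) (a_mem_span _ _ _) (ιa_reg k)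
            (fun y hy => usq_mul _ _ _ _ _ (rel1 k) (rel2 k) hy) p
            (fun h => hu (Ideal.IsPrime.mem_of_pow_mem ‹_› _ h))
      · exact loc_free_of (NI k) (ι k c) (ι k c) (c_mem_span _ _ _) (ιc_reg k)
          (fun y _ => ⟨y, rfl⟩) p hc
    · exact loc_free_of (NI k) (ι k b) (ι k b) (b_mem_span _ _ _) (ιb_reg k)
        (fun y _ => ⟨y, rfl⟩) p hb
  · exact loc_free_of (NI k) (ι k a) (ι k a) (a_mem_span _ _ _) (ιa_reg k)
      (fun y _ => ⟨y, rfl⟩) p ha

/-! ### not free -/

/-- the tangent vector at the origin in direction `j` -/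
noncomputable def tv (j : Fin 3) : T k →+* DualNumber k :=
  (MvPolynomial.aeval (R := k) (fun i : Fin 3 => if i = j then DualNumber.eps else
    (0 : DualNumber k))).toRingHom.comp εK

lemma fst_tv (j : Fin 3) :
    (TrivSqZeroExt.fstHom k k k).toRingHom.comp (tv k j) = evT k := by
  rw [tv, evT, ← RingHom.comp_assoc]
  congr 1
  refine MvPolynomial.ringHom_ext ?_ ?_
  · intro r
    simp
  · intro i
    by_cases h : i = j <;> simp [h]

lemma tv_unit (j : Fin 3) (t : (mT k).primeCompl) : IsUnit (tv k j t) := by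
  rw [TrivSqZeroExt.isUnit_iff_isUnit_fst]
  have h := RingHom.congr_fun (fst_tv k j) (t : T k)
  change TrivSqZeroExt.fst (tv k j t) = evT k t at h
  rw [h, isUnit_iff_ne_zero]
  exact t.2

/-- the tangent vector of the local ring in direction `j` -/
noncomputable def tvR (j : Fin 3) : RL k →+* DualNumber k :=
  IsLocalization.lift (M := (mT k).primeCompl) (tv_unit k j)

lemma tvR_ι (j : Fin 3) (t : T k) : tvR k j (ι k t) = tv k j t :=
  IsLocalization.lift_eq _ _

lemma fst_tvR (i j : Fin 3) (r : RL k) :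
    TrivSqZeroExt.fst (tvR k i r) = TrivSqZeroExt.fst (tvR k j r) := by
  have : (TrivSqZeroExt.fstHom k k k).toRingHom.comp (tvR k i) =
      (TrivSqZeroExt.fstHom k k k).toRingHom.comp (tvR k j) := by
    refine IsLocalization.ringHom_ext (mT k).primeCompl ?_
    ext t
    have h1 := RingHom.congr_fun (fst_tv k i) t
    have h2 := RingHom.congr_fun (fst_tv k j) t
    change TrivSqZeroExt.fst (tv k i t) = evT k t at h1
    change TrivSqZeroExt.fst (tv k j t) = evT k t at h2
    change TrivSqZeroExt.fst (tvR k i (ι k t)) = TrivSqZeroExt.fst (tvR k j (ι k t))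
    rw [tvR_ι, tvR_ι, h1, h2]
  exact RingHom.congr_fun this r

lemma fst_NI (j : Fin 3) {g : RL k} (hg : g ∈ NI k) : TrivSqZeroExt.fst (tvR k j g) = 0 := by
  have : NI k ≤ RingHom.ker ((TrivSqZeroExt.fstHom k k k).toRingHom.comp (tvR k j)) := by
    rw [NI, Ideal.span_le]
    rintro _ (rfl | rfl | rfl) <;> rw [SetLike.mem_coe, RingHom.mem_ker] <;>
      change TrivSqZeroExt.fst (tvR k j _) = 0 <;> rw [tvR_ι] <;>
      simp [tv, a, b, c, px, py, pz, εK] <;> split_ifs <;> simp
  exact this hg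

theorem not_free : ¬ Module.Free (RL k) (NI k) := by
  refine not_free_I (ι k a) (ι k b) (ι k c) (ι k a) (a_mem_span _ _ _) ?_ ?_
  · intro h
    have := ιa_reg k 1 (by rw [h, zero_mul])
    exact one_ne_zero this
  · intro g hg hle
    obtain ⟨α, hα⟩ := Ideal.mem_span_singleton'.1 (hle (a_mem_span (ι k a) (ι k b) (ι k c)))
    obtain ⟨β, hβ⟩ := Ideal.mem_span_singleton'.1 (hle (b_mem_span (ι k a) (ι k b) (ι k c)))
    have g0 := fst_NI k 0 hg
    have g2 := fst_NI k 2 hg
    have hα0 := congrArg (fun r => TrivSqZeroExt.snd (tvR k 0 r)) hα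
    have hα2 := congrArg (fun r => TrivSqZeroExt.snd (tvR k 2 r)) hα
    have hβ2 := congrArg (fun r => TrivSqZeroExt.snd (tvR k 2 r)) hβ
    simp only [map_mul, tvR_ι, TrivSqZeroExt.snd_mul, g0, g2] at hα0 hα2 hβ2
    simp [tv, a, b, px, pz, εK] at hα0 hα2 hβ2
    rw [fst_tvR k 2 0] at hα2
    rcases hα2 with h | h
    · rw [h, zero_mul] at hα0
      exact zero_ne_one hα0
    · rw [h, mul_zero] at hβ2
      exact zero_ne_one hβ2

end Pool.Agent.TH215.CI
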