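import Pool.Agent.TH215.CI.S

/-!
`R = RL k` is a complete intersection of dimension three.
-/

set_option autoImplicit false

open RingTheory.Sequence

namespace Pool.Agent.TH215.CI

open T MvPolynomial

variable (k : Type) [Field k]

lemma mono_pow {σ : Type} (i : σ) (n : ℕ) :
    (X i ^ n : MvPolynomial σ k) = monomial (Finsupp.single i n) 1 := by
  rw [X, monomial_pow, one_pow, Finsupp.smul_single, smul_eq_mul, mul_one]

/-- the ideals in `S` -/
lemma spanX_eq (s : Set (S5 k)) (G : Set (Fin 5 →₀ ℕ))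
    (h : s = (fun g => monomial g (1 : k)) '' G) :
    Ideal.span s = Ideal.span ((fun g => monomial g (1 : k)) '' G) := by rw [h]

lemma J0 : (Ideal.ofList ([] : List (S5 k))) =
    Ideal.span ((fun g => monomial g (1 : k)) '' (∅ : Set (Fin 5 →₀ ℕ))) := by
  simp

lemma J1 : (Ideal.ofList ([X 2] : List (S5 k))) =
    Ideal.span ((fun g => monomial g (1 : k)) '' ({Finsupp.single 2 1} : Set (Fin 5 →₀ ℕ))) := by
  rw [Set.image_singleton, Ideal.ofList_singleton]
  rfl

lemma J2 : (Ideal.ofList ([X 2, X 0] : List (S5 k))) =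
    Ideal.span ((fun g => monomial g (1 : k)) ''
      ({Finsupp.single 2 1, Finsupp.single 0 1} : Set (Fin 5 →₀ ℕ))) := by
  rw [Set.image_pair, Ideal.span_insert, Ideal.ofList_cons, Ideal.ofList_singleton]
  rfl

lemma J3 : (Ideal.ofList ([X 2, X 0, X 1] : List (S5 k))) =
    Ideal.span ((fun g => monomial g (1 : k)) ''
      ({Finsupp.single 2 1, Finsupp.single 0 1, Finsupp.single 1 1} :
        Set (Fin 5 →₀ ℕ))) := by
  rw [Set.image_insert_eq, Set.image_pair, Ideal.span_insert, Ideal.span_insert,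
    Ideal.ofList_cons, Ideal.ofList_cons, Ideal.ofList_singleton]
  rfl

lemma q1_sub : (q1 : S5 k) - X 4 ^ 2 ∈ Ideal.ofList ([X 2, X 0, X 1] : List (S5 k)) := by
  have h0 : (X 0 : S5 k) ∈ Ideal.ofList ([X 2, X 0, X 1] : List (S5 k)) :=
    Ideal.subset_span (by simp)
  have h2 : (X 2 : S5 k) ∈ Ideal.ofList ([X 2, X 0, X 1] : List (S5 k)) :=
    Ideal.subset_span (by simp)
  have : (q1 : S5 k) - X 4 ^ 2 = X 0 * X 4 - X 2 * X 3 := by rw [q1]; ring
  rw [this]
  exact Ideal.sub_mem _ (Ideal.mul_mem_right _ _ h0) (Ideal.mul_mem_right _ _ h2)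

lemma q2_sub : (q2 : S5 k) - X 3 ^ 2 ∈ Ideal.ofList ([X 2, X 0, X 1] : List (S5 k)) := by
  have h1 : (X 1 : S5 k) ∈ Ideal.ofList ([X 2, X 0, X 1] : List (S5 k)) :=
    Ideal.subset_span (by simp)
  have h2 : (X 2 : S5 k) ∈ Ideal.ofList ([X 2, X 0, X 1] : List (S5 k)) :=
    Ideal.subset_span (by simp)
  have : (q2 : S5 k) - X 3 ^ 2 = X 2 * X 4 - X 1 * X 3 := by rw [q2]; ring
  rw [this]
  exact Ideal.sub_mem _ (Ideal.mul_mem_right _ _ h2) (Ideal.mul_mem_right _ _ h1)

lemma J4 : (Ideal.ofList ([X 2, X 0, X 1, q1] : List (S5 k))) =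
    Ideal.span ((fun g => monomial g (1 : k)) ''
      ({Finsupp.single 2 1, Finsupp.single 0 1, Finsupp.single 1 1, Finsupp.single 4 2} :
        Set (Fin 5 →₀ ℕ))) := by
  have e1 : Ideal.ofList ([X 2, X 0, X 1, q1] : List (S5 k)) =
      Ideal.ofList ([X 2, X 0, X 1] : List (S5 k)) ⊔ Ideal.span {q1} := by
    have : ([X 2, X 0, X 1, q1] : List (S5 k)) = [X 2, X 0, X 1] ++ [q1] := rfl
    rw [this, Ideal.ofList_append, Ideal.ofList_singleton]
  have e2 : Ideal.ofList ([X 2, X 0, X 1] : List (S5 k)) ⊔ Ideal.span {q1} =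
      Ideal.ofList ([X 2, X 0, X 1] : List (S5 k)) ⊔ Ideal.span {X 4 ^ 2} := by
    apply le_antisymm
    · refine sup_le le_sup_left ?_
      rw [Ideal.span_singleton_le_iff_mem]
      have : (q1 : S5 k) = (q1 - X 4 ^ 2) + X 4 ^ 2 := by ring
      rw [this]
      exact Ideal.add_mem _ (Ideal.mem_sup_left (q1_sub k))
        (Ideal.mem_sup_right (Ideal.mem_span_singleton_self _))
    · refine sup_le le_sup_left ?_
      rw [Ideal.span_singleton_le_iff_mem]
      have : (X 4 ^ 2 : S5 k) = q1 - (q1 - X 4 ^ 2) := by ring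
      rw [this]
      exact Ideal.sub_mem _ (Ideal.mem_sup_right (Ideal.mem_span_singleton_self _))
        (Ideal.mem_sup_left (q1_sub k))
  rw [e1, e2, J3, ← Ideal.span_union, mono_pow]
  congr 1
  ext g
  simp only [Set.mem_union, Set.mem_image, Set.mem_insert_iff, Set.mem_singleton_iff]
  constructor
  · rintro (⟨x, hx, rfl⟩ | rfl)
    · exact ⟨x, by tauto, rfl⟩
    · exact ⟨_, Or.inr (Or.inr (Or.inr rfl)), rfl⟩
  · rintro ⟨x, (hx | hx | hx | rfl), rfl⟩
    · exact Or.inl ⟨x, by tauto, rfl⟩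
    · exact Or.inl ⟨x, by tauto, rfl⟩
    · exact Or.inl ⟨x, by tauto, rfl⟩
    · exact Or.inr rfl

theorem regS : IsWeaklyRegular (S5 k) ([X 2, X 0, X 1, q1, q2] : List (S5 k)) := by
  refine weaklyRegular_of _ ?_
  intro i hi f
  match i, hi with
  | 0, _ =>
    intro h
    change f ∈ Ideal.ofList ([] : List (S5 k))
    change X 2 * f ∈ Ideal.ofList ([] : List (S5 k)) at h
    rw [J0] at h ⊢
    exact mono_colon _ (Finsupp.single 2 1) (by simp) f h
  | 1, _ =>
    intro h
    change f ∈ Ideal.ofList ([X 2] : List (S5 k))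
    change X 0 * f ∈ Ideal.ofList ([X 2] : List (S5 k)) at h
    rw [J1] at h ⊢
    refine mono_colon _ (Finsupp.single 0 1) ?_ f h
    rintro _ rfl i
    fin_cases i <;> simp
  | 2, _ =>
    intro h
    change f ∈ Ideal.ofList ([X 2, X 0] : List (S5 k))
    change X 1 * f ∈ Ideal.ofList ([X 2, X 0] : List (S5 k)) at h
    rw [J2] at h ⊢
    refine mono_colon _ (Finsupp.single 1 1) ?_ f h
    rintro _ (rfl | rfl) i <;> fin_cases i <;> simp
  | 3, _ =>
    intro h
    change f ∈ Ideal.ofList ([X 2, X 0, X 1] : List (S5 k))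
    change q1 * f ∈ Ideal.ofList ([X 2, X 0, X 1] : List (S5 k)) at h
    have h' : X 4 ^ 2 * f ∈ Ideal.ofList ([X 2, X 0, X 1] : List (S5 k)) := by
      have : X 4 ^ 2 * f = q1 * f - (q1 - X 4 ^ 2) * f := by ring
      rw [this]
      exact Ideal.sub_mem _ h (Ideal.mul_mem_right _ _ (q1_sub k))
    rw [J3, mono_pow] at h'
    rw [J3]
    refine mono_colon _ (Finsupp.single 4 2) ?_ f h'
    rintro _ (rfl | rfl | rfl) i <;> fin_cases i <;> simp
  | 4, _ =>
    intro h
    change f ∈ Ideal.ofList ([X 2, X 0, X 1, q1] : List (S5 k))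
    change q2 * f ∈ Ideal.ofList ([X 2, X 0, X 1, q1] : List (S5 k)) at h
    have hle : Ideal.ofList ([X 2, X 0, X 1] : List (S5 k)) ≤
        Ideal.ofList ([X 2, X 0, X 1, q1] : List (S5 k)) := by
      have : ([X 2, X 0, X 1, q1] : List (S5 k)) = [X 2, X 0, X 1] ++ [q1] := rfl
      rw [this, Ideal.ofList_append]
      exact le_sup_left
    have h' : X 3 ^ 2 * f ∈ Ideal.ofList ([X 2, X 0, X 1, q1] : List (S5 k)) := by
      have : X 3 ^ 2 * f = q2 * f - (q2 - X 3 ^ 2) * f := by ring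
      rw [this]
      exact Ideal.sub_mem _ h (Ideal.mul_mem_right _ _ (hle (q2_sub k)))
    rw [J4, mono_pow] at h'
    rw [J4]
    refine mono_colon _ (Finsupp.single 3 2) ?_ f h'
    rintro _ (rfl | rfl | rfl | rfl) i <;> fin_cases i <;> simp

lemma reg5 : IsRegular (SL k) (([X 2, X 0, X 1, q1, q2] : List (S5 k)).map
    (algebraMap (S5 k) (SL k))) :=
  (regS k).isRegular_of_isLocalization_of_mem (SL k) (mS k) (by
    intro r hr
    simp only [List.mem_cons, List.not_mem_nil, or_false] at hr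
    rcases hr with rfl | rfl | rfl | rfl | rfl <;> rw [mem_mS_iff] <;> simp [q1, q2])

/-- the regular sequence `q1, q2` -/
noncomputable def qs : List (SL k) := [algebraMap (S5 k) (SL k) q1, algebraMap (S5 k) (SL k) q2]

theorem reg_qs : IsRegular (SL k) (qs k) := by
  have h1 : IsRegular (SL k) (qs k ++ ([X 2, X 0, X 1] : List (S5 k)).map
      (algebraMap (S5 k) (SL k))) := by
    refine IsLocalRing.isRegular_of_perm (reg5 k) ?_
    have : (([X 2, X 0, X 1, q1, q2] : List (S5 k)).map (algebraMap (S5 k) (SL k))) =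
      ([X 2, X 0, X 1] : List (S5 k)).map (algebraMap (S5 k) (SL k)) ++ qs k := rfl
    rw [this]
    exact List.perm_append_comm
  have h2 := (isWeaklyRegular_append_iff (SL k) (qs k) _).1 h1.toIsWeaklyRegular
  refine RingTheory.Sequence.IsRegular.of_isWeaklyRegular_of_mem_maximalIdeal (SL k) ?_ h2.1
  intro r hr
  simp only [qs, List.mem_cons, List.not_mem_nil, or_false] at hr
  rcases hr with rfl | rfl <;> rw [IsLocalization.AtPrime.to_map_mem_maximal_iff (SL k) (mS k),
    mem_mS_iff] <;> simp [q1, q2]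

theorem dimS : ringKrullDim (SL k) = 5 := by
  apply le_antisymm
  · rw [IsLocalization.AtPrime.ringKrullDim_eq_height (mS k)]
    refine (Ideal.height_le_ringKrullDim_of_ne_top (Ideal.IsPrime.ne_top inferInstance)).trans ?_
    rw [MvPolynomial.ringKrullDim_of_isNoetherianRing]
    simp
  · rw [← ringKrullDim_add_length_eq_ringKrullDim_of_isRegular _ (reg5 k)]
    have : Nontrivial (SL k ⧸ Ideal.ofList (([X 2, X 0, X 1, q1, q2] : List (S5 k)).map
        (algebraMap (S5 k) (SL k)))) := by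
      have := (reg5 k).2
      rw [smul_eq_mul, Ideal.mul_top] at this
      exact Ideal.Quotient.nontrivial_iff.2 this.symm
    have h0 : (0 : WithBot ℕ∞) ≤ ringKrullDim (SL k ⧸ Ideal.ofList
      (([X 2, X 0, X 1, q1, q2] : List (S5 k)).map (algebraMap (S5 k) (SL k)))) :=
      ringKrullDim_nonneg_of_nontrivial
    calc (5 : WithBot ℕ∞) = 0 + 5 := by rw [zero_add]
      _ ≤ _ := add_le_add h0 le_rfl

instance : IsRegularLocalRing (SL k) := inferInstance

end Pool.Agent.TH215.CI
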