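import Pool.Agent.TH215.CI.S2

/-!
`R = RL k` is a complete intersection of dimension three.
-/

set_option autoImplicit false

open RingTheory.Sequence

namespace Pool.Agent.TH215.CI

open T MvPolynomial

variable (k : Type) [Field k]

lemma eT_mk (f : S5 k) : eT k (Ideal.Quotient.mk _ f) = ψ k f := ψq_mk k f

lemma qs_eq : (qI k).map (algebraMap (S5 k) (SL k)) = Ideal.ofList (qs k) := by
  rw [qI, Ideal.map_span, Set.image_pair, Ideal.span_insert, qs, Ideal.ofList_cons,
    Ideal.ofList_singleton]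

lemma eT_map : (Algebra.algebraMapSubmonoid (S5 k ⧸ qI k) (mS k).primeCompl).map
    (eT k).toMonoidHom = (mT k).primeCompl := by
  ext t
  constructor
  · rintro ⟨_, ⟨s, hs, rfl⟩, rfl⟩
    change eT k (Ideal.Quotient.mk _ s) ∈ _
    rw [eT_mk]
    exact hs
  · intro ht
    obtain ⟨s, hs⟩ := Ideal.Quotient.mk_surjective ((eT k).symm t)
    have h1 : ψ k s = t := by
      rw [← eT_mk, hs, RingEquiv.apply_symm_apply]
    refine ⟨Ideal.Quotient.mk _ s, ⟨s, ?_, rfl⟩, ?_⟩
    · change ψ k s ∉ mT k
      rw [h1]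
      exact ht
    · exact (eT_mk k s).trans h1

/-- A local ring is a complete intersection if it is the quotient of a regular local ring by a
regular sequence. -/
def IsLocalCI (R : Type) [CommRing R] : Prop :=
  ∃ (S : Type) (_ : CommRing S) (_ : IsRegularLocalRing S) (rs : List S),
    IsRegular S rs ∧ Nonempty (R ≃+* S ⧸ Ideal.ofList rs)

lemma dim_aux (R : Type) [CommRing R] (S : Type) [CommRing S] [IsRegularLocalRing S]
    (rs : List S) (h1 : IsRegular S rs) (e : R ≃+* S ⧸ Ideal.ofList rs)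
    (h2 : ringKrullDim S = 5) (h3 : rs.length = 2) : ringKrullDim R = 3 := by
  have h := ringKrullDim_add_length_eq_ringKrullDim_of_isRegular rs h1
  rw [h2, h3] at h
  rw [ringKrullDim_eq_of_ringEquiv e]
  generalize ringKrullDim (S ⧸ Ideal.ofList rs) = d at h
  induction d with
  | bot => simp at h
  | coe d =>
    have h' : d + 2 = 5 := WithBot.coe_injective (α := ℕ∞) h
    induction d using ENat.recTopCoe with
    | top => exact absurd h' (by decide)
    | coe d =>
      have : d + 2 = 5 := by exact_mod_cast h'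
      have : d = 3 := by omega
      rw [this]
      rfl

lemma eq_aux {A B : Type} [CommRing A] [CommRing B] (M : Submonoid A) (N : Submonoid B)
    (A' B' : Type) [CommRing A'] [CommRing B'] [Algebra A A'] [Algebra B B']
    [IsLocalization M A'] [IsLocalization N B'] (e : A ≃+* B) (h : M.map e.toMonoidHom = N) :
    Nonempty (A' ≃+* B') :=
  ⟨IsLocalization.ringEquivOfRingEquiv (M := M) (T := N) A' B' e h⟩

/-- `R = S_m / (q1, q2)` -/
theorem ci_equiv : IsLocalCI (RL k) ∧ ringKrullDim (RL k) = 3 := by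
  obtain ⟨e1⟩ := eq_aux (Algebra.algebraMapSubmonoid (S5 k ⧸ qI k) (mS k).primeCompl)
    (mT k).primeCompl (SL k ⧸ (qI k).map (algebraMap (S5 k) (SL k))) (RL k) (eT k) (eT_map k)
  have e2 := e1.symm.trans (Ideal.quotEquivOfEq (qs_eq k))
  exact ⟨⟨SL k, inferInstance, inferInstance, qs k, reg_qs k, ⟨e2⟩⟩,
    dim_aux (RL k) (SL k) (qs k) (reg_qs k) e2 (dimS k) rfl⟩

end Pool.Agent.TH215.CI
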