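import Mathlib

/-!
The ring `T = k[a, b, c, u, v] / (a v - b u, b v - c u)` as a free module of rank four over
`P = k[x, y, z]`, with `a = x + v`, `b = z`, `c = y - u`.
-/

set_option autoImplicit false

namespace Pool.Agent.TH215.CI

variable (k : Type) [Field k]

/-- `P = k[x, y, z]` -/
abbrev P : Type := MvPolynomial (Fin 3) k

/-- The free `P`-module with basis `1, u, v, u v`. -/
@[ext]
structure T : Type where
  e0 : P k
  e1 : P k
  e2 : P k
  e3 : P k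

variable {k}

/-- the variable `x` of `P` -/
noncomputable def px : P k := MvPolynomial.X 0
/-- the variable `y` of `P` -/
noncomputable def py : P k := MvPolynomial.X 1
/-- the variable `z` of `P` -/
noncomputable def pz : P k := MvPolynomial.X 2

namespace T

noncomputable instance : Zero (T k) := ⟨⟨0, 0, 0, 0⟩⟩
noncomputable instance : One (T k) := ⟨⟨1, 0, 0, 0⟩⟩
noncomputable instance : Add (T k) := ⟨fun f g => ⟨f.e0 + g.e0, f.e1 + g.e1, f.e2 + g.e2,
  f.e3 + g.e3⟩⟩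
noncomputable instance : Neg (T k) := ⟨fun f => ⟨-f.e0, -f.e1, -f.e2, -f.e3⟩⟩
noncomputable instance : SMul (P k) (T k) := ⟨fun p f => ⟨p * f.e0, p * f.e1, p * f.e2,
  p * f.e3⟩⟩
noncomputable instance : Mul (T k) := ⟨fun f g =>
  ⟨f.e0 * g.e0,
   f.e0 * g.e1 + f.e1 * g.e0 + py * (f.e1 * g.e1) + pz * (f.e2 * g.e2)
     - pz ^ 2 * (f.e1 * g.e3 + f.e3 * g.e1) + py * pz * (f.e2 * g.e3 + f.e3 * g.e2)
     + (py ^ 2 * pz + px * pz ^ 2) * (f.e3 * g.e3),
   f.e0 * g.e2 + f.e2 * g.e0 - pz * (f.e1 * g.e1) - px * (f.e2 * g.e2)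
     + px * pz * (f.e1 * g.e3 + f.e3 * g.e1) - pz ^ 2 * (f.e2 * g.e3 + f.e3 * g.e2)
     - (py * pz ^ 2 + px ^ 2 * pz) * (f.e3 * g.e3),
   f.e0 * g.e3 + f.e3 * g.e0 + (f.e1 * g.e2 + f.e2 * g.e1)
     + py * (f.e1 * g.e3 + f.e3 * g.e1) - px * (f.e2 * g.e3 + f.e3 * g.e2)
     - (px * py + pz ^ 2) * (f.e3 * g.e3)⟩⟩

section simps
variable (f g : T k) (p : P k)
@[simp] lemma zero_e0 : (0 : T k).e0 = 0 := rfl
@[simp] lemma zero_e1 : (0 : T k).e1 = 0 := rfl
@[simp] lemma zero_e2 : (0 : T k).e2 = 0 := rfl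
@[simp] lemma zero_e3 : (0 : T k).e3 = 0 := rfl
@[simp] lemma one_e0 : (1 : T k).e0 = 1 := rfl
@[simp] lemma one_e1 : (1 : T k).e1 = 0 := rfl
@[simp] lemma one_e2 : (1 : T k).e2 = 0 := rfl
@[simp] lemma one_e3 : (1 : T k).e3 = 0 := rfl
@[simp] lemma add_e0 : (f + g).e0 = f.e0 + g.e0 := rfl
@[simp] lemma add_e1 : (f + g).e1 = f.e1 + g.e1 := rfl
@[simp] lemma add_e2 : (f + g).e2 = f.e2 + g.e2 := rfl
@[simp] lemma add_e3 : (f + g).e3 = f.e3 + g.e3 := rfl
@[simp] lemma neg_e0 : (-f).e0 = -f.e0 := rfl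
@[simp] lemma neg_e1 : (-f).e1 = -f.e1 := rfl
@[simp] lemma neg_e2 : (-f).e2 = -f.e2 := rfl
@[simp] lemma neg_e3 : (-f).e3 = -f.e3 := rfl
@[simp] lemma smul_e0 : (p • f).e0 = p * f.e0 := rfl
@[simp] lemma smul_e1 : (p • f).e1 = p * f.e1 := rfl
@[simp] lemma smul_e2 : (p • f).e2 = p * f.e2 := rfl
@[simp] lemma smul_e3 : (p • f).e3 = p * f.e3 := rfl
@[simp] lemma mul_e0 : (f * g).e0 = f.e0 * g.e0 := rfl
@[simp] lemma mul_e1 : (f * g).e1 =
   f.e0 * g.e1 + f.e1 * g.e0 + py * (f.e1 * g.e1) + pz * (f.e2 * g.e2)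
     - pz ^ 2 * (f.e1 * g.e3 + f.e3 * g.e1) + py * pz * (f.e2 * g.e3 + f.e3 * g.e2)
     + (py ^ 2 * pz + px * pz ^ 2) * (f.e3 * g.e3) := rfl
@[simp] lemma mul_e2 : (f * g).e2 =
   f.e0 * g.e2 + f.e2 * g.e0 - pz * (f.e1 * g.e1) - px * (f.e2 * g.e2)
     + px * pz * (f.e1 * g.e3 + f.e3 * g.e1) - pz ^ 2 * (f.e2 * g.e3 + f.e3 * g.e2)
     - (py * pz ^ 2 + px ^ 2 * pz) * (f.e3 * g.e3) := rfl
@[simp] lemma mul_e3 : (f * g).e3 =
   f.e0 * g.e3 + f.e3 * g.e0 + (f.e1 * g.e2 + f.e2 * g.e1)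
     + py * (f.e1 * g.e3 + f.e3 * g.e1) - px * (f.e2 * g.e3 + f.e3 * g.e2)
     - (px * py + pz ^ 2) * (f.e3 * g.e3) := rfl
end simps

noncomputable instance : CommRing (T k) where
  add_assoc a b c := by ext1 <;> simp <;> ring
  zero_add a := by ext1 <;> simp
  add_zero a := by ext1 <;> simp
  add_comm a b := by ext1 <;> simp <;> ring
  neg_add_cancel a := by ext1 <;> simp
  mul_assoc a b c := by ext1 <;> simp only [mul_e0, mul_e1, mul_e2, mul_e3] <;> ring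
  mul_comm a b := by ext1 <;> simp only [mul_e0, mul_e1, mul_e2, mul_e3] <;> ring
  one_mul a := by ext1 <;> simp
  mul_one a := by ext1 <;> simp
  left_distrib a b c := by
    ext1 <;> simp only [mul_e0, mul_e1, mul_e2, mul_e3, add_e0, add_e1, add_e2, add_e3] <;> ring
  right_distrib a b c := by
    ext1 <;> simp only [mul_e0, mul_e1, mul_e2, mul_e3, add_e0, add_e1, add_e2, add_e3] <;> ring
  zero_mul a := by ext1 <;> simp
  mul_zero a := by ext1 <;> simp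
  nsmul := nsmulRec
  zsmul := zsmulRec

@[simp] lemma sub_e0 (f g : T k) : (f - g).e0 = f.e0 - g.e0 := by
  rw [sub_eq_add_neg, add_e0, neg_e0, sub_eq_add_neg]
@[simp] lemma sub_e1 (f g : T k) : (f - g).e1 = f.e1 - g.e1 := by
  rw [sub_eq_add_neg, add_e1, neg_e1, sub_eq_add_neg]
@[simp] lemma sub_e2 (f g : T k) : (f - g).e2 = f.e2 - g.e2 := by
  rw [sub_eq_add_neg, add_e2, neg_e2, sub_eq_add_neg]
@[simp] lemma sub_e3 (f g : T k) : (f - g).e3 = f.e3 - g.e3 := by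
  rw [sub_eq_add_neg, add_e3, neg_e3, sub_eq_add_neg]

/-- the inclusion of `P` -/
noncomputable def ofP : P k →+* T k where
  toFun p := ⟨p, 0, 0, 0⟩
  map_one' := rfl
  map_mul' a b := by ext1 <;> simp
  map_zero' := rfl
  map_add' a b := by ext1 <;> simp

noncomputable instance : Algebra (P k) (T k) where
  algebraMap := ofP
  commutes' a b := mul_comm _ _
  smul_def' a b := by ext1 <;> simp [ofP]

@[simp] lemma algebraMap_e0 (p : P k) : (algebraMap (P k) (T k) p).e0 = p := rfl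
@[simp] lemma algebraMap_e1 (p : P k) : (algebraMap (P k) (T k) p).e1 = 0 := rfl
@[simp] lemma algebraMap_e2 (p : P k) : (algebraMap (P k) (T k) p).e2 = 0 := rfl
@[simp] lemma algebraMap_e3 (p : P k) : (algebraMap (P k) (T k) p).e3 = 0 := rfl

/-- the basis of `T` -/
noncomputable def equivPi : T k ≃ₗ[P k] (P k × P k × P k × P k) where
  toFun f := (f.e0, f.e1, f.e2, f.e3)
  invFun f := ⟨f.1, f.2.1, f.2.2.1, f.2.2.2⟩
  map_add' _ _ := rfl
  map_smul' _ _ := rfl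
  left_inv _ := rfl
  right_inv _ := rfl

instance : Module.Free (P k) (T k) := Module.Free.of_equiv equivPi.symm
instance : Module.Finite (P k) (T k) := Module.Finite.equiv equivPi.symm
instance : IsNoetherianRing (T k) := IsNoetherianRing.of_finite (P k) (T k)

/-- the element `u` -/
noncomputable def u : T k := ⟨0, 1, 0, 0⟩
/-- the element `v` -/
noncomputable def v : T k := ⟨0, 0, 1, 0⟩
/-- the element `a` -/
noncomputable def a : T k := ⟨px, 0, 1, 0⟩
/-- the element `b` -/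
noncomputable def b : T k := ⟨pz, 0, 0, 0⟩
/-- the element `c` -/
noncomputable def c : T k := ⟨py, -1, 0, 0⟩

lemma av : a * v = b * (u : T k) := by
  ext1 <;> simp [a, b, u, v]

lemma bv : b * v = c * (u : T k) := by
  ext1 <;> simp [b, c, u, v]

/-- the element `a c - b²` -/
noncomputable def Δ : T k := a * c - b ^ 2

lemma Δ_eq : (Δ : T k) = ⟨px * py - pz ^ 2, - px, py, -1⟩ := by
  ext1 <;> simp [Δ, a, b, c, pow_two]

end T

end Pool.Agent.TH215.CI
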