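import Pool.Agent.TH215.CI.T

/-!
Colon ideals in `T = k[a, b, c, u, v] / (a v - b u, b v - c u)`.
-/

set_option autoImplicit false

namespace Pool.Agent.TH215.CI.T

open MvPolynomial

variable {k : Type} [Field k]

lemma px_ne : (px : P k) ≠ 0 := X_ne_zero 0
lemma py_ne : (py : P k) ≠ 0 := X_ne_zero 1
lemma pz_ne : (pz : P k) ≠ 0 := X_ne_zero 2

/-- the ideal `(a)` -/
noncomputable def IA (k : Type) [Field k] : Ideal (T k) := Ideal.span {a}
/-- the ideal `(b)` -/
noncomputable def IB (k : Type) [Field k] : Ideal (T k) := Ideal.span {b}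
/-- the ideal `(c)` -/
noncomputable def IC (k : Type) [Field k] : Ideal (T k) := Ideal.span {c}
/-- the ideal `(u)` -/
noncomputable def IU (k : Type) [Field k] : Ideal (T k) := Ideal.span {u}
/-- the ideal `(v)` -/
noncomputable def IV (k : Type) [Field k] : Ideal (T k) := Ideal.span {v}
/-- the ideal `(a c - b²)` -/
noncomputable def ID (k : Type) [Field k] : Ideal (T k) := Ideal.span {Δ}

lemma a_mem : (a : T k) ∈ IA k := Ideal.mem_span_singleton_self a
lemma b_mem : (b : T k) ∈ IB k := Ideal.mem_span_singleton_self b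
lemma c_mem : (c : T k) ∈ IC k := Ideal.mem_span_singleton_self c
lemma u_mem : (u : T k) ∈ IU k := Ideal.mem_span_singleton_self u
lemma v_mem : (v : T k) ∈ IV k := Ideal.mem_span_singleton_self v
lemma Δ_mem : (Δ : T k) ∈ ID k := Ideal.mem_span_singleton_self Δ

/-- the projection `T → T / (u, v) = P` -/
noncomputable def εK : T k →+* P k where
  toFun f := f.e0
  map_one' := rfl
  map_mul' _ _ := rfl
  map_zero' := rfl
  map_add' _ _ := rfl

/-- `P / (z)` -/
abbrev Pq (k : Type) [Field k] : Type := P k ⧸ Ideal.span {(pz : P k)}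

/-- the projection `P → P / (z)` -/
noncomputable def mq : P k →+* Pq k := Ideal.Quotient.mk _

lemma mq_z : mq (pz : P k) = 0 := Ideal.Quotient.eq_zero_iff_mem.2 (Ideal.mem_span_singleton_self _)

lemma mq_eq_zero {p : P k} : mq p = 0 ↔ ∃ r, p = pz * r := by
  unfold mq
  rw [Ideal.Quotient.eq_zero_iff_mem, Ideal.mem_span_singleton]
  rfl

instance : IsDomain (Pq k) := by
  have : (Ideal.span {(pz : P k)}).IsPrime :=
    (Ideal.span_singleton_prime pz_ne).2 (X_prime)
  exact Ideal.Quotient.isDomain _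

lemma not_dvd {i j : Fin 3} (h : i ≠ j) : ¬ (X i : P k) ∣ X j := by
  rw [X_dvd_X]
  exact h

lemma mq_x : mq (px : P k) ≠ 0 := by
  rw [Ne, mq_eq_zero]
  rintro ⟨r, hr⟩
  exact not_dvd (k := k) (i := 2) (j := 0) (by decide) ⟨r, hr⟩

lemma mq_y : mq (py : P k) ≠ 0 := by
  rw [Ne, mq_eq_zero]
  rintro ⟨r, hr⟩
  exact not_dvd (k := k) (i := 2) (j := 1) (by decide) ⟨r, hr⟩

/-- the projection `T → T / (a, b, c)` -/
noncomputable def εI : T k →+* Pq k where
  toFun f := mq f.e0 + mq py * mq f.e1 - mq px * mq f.e2 - mq px * mq py * mq f.e3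
  map_one' := by simp
  map_mul' f g := by
    simp only [mul_e0, mul_e1, mul_e2, mul_e3, map_add, map_sub, map_mul, map_pow, mq_z]
    ring
  map_zero' := by simp
  map_add' f g := by
    simp only [add_e0, add_e1, add_e2, add_e3, map_add]
    ring

/-- the projection `T → T / (a, b, u)` -/
noncomputable def εF : T k →+* Pq k where
  toFun f := mq f.e0 - mq px * mq f.e2
  map_one' := by simp
  map_mul' f g := by
    simp only [mul_e0, mul_e2, map_add, map_sub, map_mul, map_pow, mq_z]
    ring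
  map_zero' := by simp
  map_add' f g := by
    simp only [add_e0, add_e2, map_add]
    ring

lemma ker_εK (f : T k) : εK f = 0 ↔ f ∈ IU k ⊔ IV k := by
  constructor
  · intro h
    have h0 : f.e0 = 0 := h
    have e : f = (algebraMap _ (T k) f.e1 + algebraMap _ (T k) f.e3 * v) * u +
        algebraMap _ (T k) f.e2 * v := by
      ext1 <;> simp [u, v, h0]
    rw [e]
    exact Ideal.add_mem _ (Ideal.mul_mem_left _ _ (Ideal.mem_sup_left u_mem))
      (Ideal.mul_mem_left _ _ (Ideal.mem_sup_right v_mem))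
  · have : IU k ⊔ IV k ≤ RingHom.ker (εK : T k →+* P k) := by
      rw [sup_le_iff, IU, IV, Ideal.span_singleton_le_iff_mem, Ideal.span_singleton_le_iff_mem]
      exact ⟨rfl, rfl⟩
    exact fun h => this h

lemma ker_εI (f : T k) : εI f = 0 ↔ f ∈ IA k ⊔ IB k ⊔ IC k := by
  constructor
  · intro h
    have h1 : mq (f.e0 + py * f.e1 - px * f.e2 - px * py * f.e3) = 0 := by
      rw [← h]
      simp only [map_add, map_sub, map_mul]
      rfl
    obtain ⟨r, hr⟩ := mq_eq_zero.1 h1
    have e : f = (algebraMap _ (T k) f.e2 + algebraMap _ (T k) f.e3 * u) * a +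
        algebraMap _ (T k) r * b +
        (- algebraMap _ (T k) f.e1 + algebraMap _ (T k) (px * f.e3)) * c := by
      ext1
      · simp [a, b, c, u]
        linear_combination hr
      · simp [a, b, c, u]
        ring
      · simp [a, b, c, u]
      · simp [a, b, c, u]
    rw [e]
    exact Ideal.add_mem _ (Ideal.add_mem _
      (Ideal.mul_mem_left _ _ (Ideal.mem_sup_left (Ideal.mem_sup_left a_mem)))
      (Ideal.mul_mem_left _ _ (Ideal.mem_sup_left (Ideal.mem_sup_right b_mem))))
      (Ideal.mul_mem_left _ _ (Ideal.mem_sup_right c_mem))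
  · have : IA k ⊔ IB k ⊔ IC k ≤ RingHom.ker (εI : T k →+* Pq k) := by
      rw [sup_le_iff, sup_le_iff, IA, IB, IC, Ideal.span_singleton_le_iff_mem,
        Ideal.span_singleton_le_iff_mem, Ideal.span_singleton_le_iff_mem]
      refine ⟨⟨?_, ?_⟩, ?_⟩ <;> rw [RingHom.mem_ker]
      · simp [εI, a]
      · simp [εI, b, mq_z]
      · simp [εI, c]
        ring
    exact fun h => this h

lemma ker_εF (f : T k) : εF f = 0 ↔ f ∈ IA k ⊔ IB k ⊔ IU k := by
  constructor
  · intro h
    have h1 : mq (f.e0 - px * f.e2) = 0 := by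
      rw [← h]
      simp only [map_sub, map_mul]
      rfl
    obtain ⟨r, hr⟩ := mq_eq_zero.1 h1
    have e : f = algebraMap _ (T k) f.e2 * a + algebraMap _ (T k) r * b +
        (algebraMap _ (T k) f.e1 + algebraMap _ (T k) f.e3 * v) * u := by
      ext1
      · simp [a, b, v, u]
        linear_combination hr
      · simp [a, b, v, u]
      · simp [a, b, v, u]
      · simp [a, b, v, u]
    rw [e]
    exact Ideal.add_mem _ (Ideal.add_mem _
      (Ideal.mul_mem_left _ _ (Ideal.mem_sup_left (Ideal.mem_sup_left a_mem)))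
      (Ideal.mul_mem_left _ _ (Ideal.mem_sup_left (Ideal.mem_sup_right b_mem))))
      (Ideal.mul_mem_left _ _ (Ideal.mem_sup_right u_mem))
  · have : IA k ⊔ IB k ⊔ IU k ≤ RingHom.ker (εF : T k →+* Pq k) := by
      rw [sup_le_iff, sup_le_iff, IA, IB, IU, Ideal.span_singleton_le_iff_mem,
        Ideal.span_singleton_le_iff_mem, Ideal.span_singleton_le_iff_mem]
      refine ⟨⟨?_, ?_⟩, ?_⟩ <;> rw [RingHom.mem_ker] <;> simp [εF, a, b, u, mq_z]
    exact fun h => this h

/-- `ann(a) = 0` -/
lemma a_reg (f : T k) (h : a * f = 0) : f = 0 := by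
  have h0 := congrArg T.e0 h
  have h1 := congrArg T.e1 h
  have h2 := congrArg T.e2 h
  have h3 := congrArg T.e3 h
  simp [a] at h0 h1 h2 h3
  have f0 : f.e0 = 0 := h0.resolve_left px_ne
  rw [f0] at h2
  have f3 : f.e3 = 0 := by simpa [pz_ne] using h2
  have f1 : f.e1 = 0 := h3
  rw [f1, f3] at h1
  have f2 : f.e2 = 0 := by simpa [pz_ne] using h1
  ext1 <;> simp [f0, f1, f2, f3]

/-- `ann(c) = 0` -/
lemma c_reg (f : T k) (h : c * f = 0) : f = 0 := by
  have h0 := congrArg T.e0 h
  have h1 := congrArg T.e1 h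
  have h2 := congrArg T.e2 h
  have h3 := congrArg T.e3 h
  simp [c] at h0 h1 h2 h3
  have f0 : f.e0 = 0 := h0.resolve_left py_ne
  have f3 : f.e3 = 0 := by
    rw [f0] at h1
    have : pz ^ 2 * f.e3 = 0 := by linear_combination h1
    simpa [pz_ne] using this
  have f2 : f.e2 = 0 := h3
  rw [f2, f3] at h2
  have f1 : f.e1 = 0 := by simpa [pz_ne] using h2
  ext1 <;> simp [f0, f1, f2, f3]

/-- `ann(Δ) = (u, v)` -/
lemma colon1 (f : T k) : Δ * f ∈ (⊥ : Ideal (T k)) ↔ f ∈ IU k ⊔ IV k := by
  rw [Ideal.mem_bot, ← ker_εK]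
  constructor
  · intro h
    have h1 : (px * py - pz ^ 2) * f.e0 = 0 := by
      have := congrArg T.e0 h
      rwa [Δ_eq, mul_e0, zero_e0] at this
    refine (mul_eq_zero.1 h1).resolve_left fun h2 => ?_
    have h3 : mq (px * py - pz ^ 2 : P k) = mq px * mq py := by
      rw [map_sub, map_mul, map_pow, mq_z]; ring
    rw [h2, map_zero] at h3
    exact mul_ne_zero mq_x mq_y h3.symm
  · intro h
    have h0 : f.e0 = 0 := h
    rw [Δ_eq]
    ext1 <;> simp [h0] <;> ring

/-- `ann(u) = (Δ)` -/
lemma colon2 (f : T k) : u * f ∈ (⊥ : Ideal (T k)) ↔ f ∈ ID k := by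
  rw [Ideal.mem_bot, ID, Ideal.mem_span_singleton']
  constructor
  · intro h
    have h1 := congrArg T.e1 h
    have h2 := congrArg T.e2 h
    have h3 := congrArg T.e3 h
    simp [u] at h1 h2 h3
    have f2 : f.e2 = - (py * f.e3) := by linear_combination h3
    have f1 : f.e1 = px * f.e3 := by
      have : pz * (f.e1 - px * f.e3) = 0 := by linear_combination - h2
      have := (mul_eq_zero.1 this).resolve_left pz_ne
      linear_combination this
    have f0 : f.e0 = (pz ^ 2 - px * py) * f.e3 := by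
      rw [f1] at h1
      linear_combination h1
    refine ⟨- algebraMap _ (T k) f.e3, ?_⟩
    rw [Δ_eq]
    ext1
    · simp [f0]; ring
    · simp [f1]; ring
    · simp [f2]; ring
    · simp
  · rintro ⟨g, rfl⟩
    have h0 : u * Δ = (0 : T k) := by
      rw [Δ_eq]
      ext1 <;> simp [u] <;> ring
    rw [mul_left_comm, h0, mul_zero]

lemma u_mul_c : u * c = (v * b : T k) := by rw [mul_comm, ← bv, mul_comm]
lemma v_mul_a : v * a = (u * b : T k) := by rw [mul_comm, av, mul_comm]

/-- `((u) : v) = (a, b, u)` -/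
lemma colon3 (f : T k) : v * f ∈ IU k ↔ f ∈ IA k ⊔ IB k ⊔ IU k := by
  constructor
  · intro h
    rw [← ker_εF]
    have h1 : εF (v * f) = 0 := by
      rw [ker_εF]
      exact Ideal.mem_sup_right h
    rw [map_mul] at h1
    refine (mul_eq_zero.1 h1).resolve_left ?_
    simp [εF, v, mq_x]
  · intro h
    have : IA k ⊔ IB k ⊔ IU k ≤ Submodule.comap (LinearMap.mulLeft (T k) v) (IU k) := by
      refine sup_le (sup_le ?_ ?_) ?_
      · refine (Ideal.span_singleton_le_iff_mem _).2 (show (v * a : T k) ∈ IU k from ?_)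
        rw [v_mul_a]
        exact Ideal.mul_mem_right _ _ u_mem
      · refine (Ideal.span_singleton_le_iff_mem _).2 (show (v * b : T k) ∈ IU k from ?_)
        rw [← u_mul_c]
        exact Ideal.mul_mem_right _ _ u_mem
      · exact (Ideal.span_singleton_le_iff_mem _).2 (show (v * u : T k) ∈ IU k from
          Ideal.mul_mem_left _ _ u_mem)
    exact this h

/-- `ann(a) = 0` -/
lemma colon4 (f : T k) : a * f ∈ (⊥ : Ideal (T k)) ↔ f ∈ (⊥ : Ideal (T k)) := by
  rw [Ideal.mem_bot, Ideal.mem_bot]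
  exact ⟨a_reg f, fun h => by rw [h, mul_zero]⟩

/-- `((a) : b) = (a, u)` -/
lemma colon5 (f : T k) : b * f ∈ IA k ↔ f ∈ IA k ⊔ IU k := by
  constructor
  · intro h
    rw [IA, Ideal.mem_span_singleton'] at h
    obtain ⟨g, hg⟩ := h
    have h0 := congrArg T.e0 hg
    have h1 := congrArg T.e1 hg
    have h2 := congrArg T.e2 hg
    have h3 := congrArg T.e3 hg
    simp [a, b] at h0 h1 h2 h3
    have g0 : g.e0 = pz * (f.e2 + pz * g.e3) := by linear_combination h2
    have g1 : g.e1 = pz * f.e3 := by linear_combination h3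
    have f0 : f.e0 = px * (f.e2 + pz * g.e3) := by
      rw [g0] at h0
      apply mul_left_cancel₀ pz_ne
      linear_combination - h0
    have f1 : f.e1 = px * f.e3 + g.e2 + py * g.e3 := by
      rw [g1] at h1
      apply mul_left_cancel₀ pz_ne
      linear_combination - h1
    have e : f = algebraMap _ (T k) (f.e2 + pz * g.e3) * a +
        (⟨px * f.e3 + g.e2, g.e3, f.e3, 0⟩ : T k) * u := by
      ext1
      · simp [a, u]; linear_combination f0
      · simp [a, u]; linear_combination f1
      · simp [a, u]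
      · simp [a, u]
    rw [e]
    exact Ideal.add_mem _ (Ideal.mul_mem_left _ _ (Ideal.mem_sup_left a_mem))
      (Ideal.mul_mem_left _ _ (Ideal.mem_sup_right u_mem))
  · intro h
    have : IA k ⊔ IU k ≤ Submodule.comap (LinearMap.mulLeft (T k) b) (IA k) := by
      refine sup_le ?_ ?_
      · exact (Ideal.span_singleton_le_iff_mem _).2 (show (b * a : T k) ∈ IA k from
          Ideal.mul_mem_left _ _ a_mem)
      · refine (Ideal.span_singleton_le_iff_mem _).2 (show (b * u : T k) ∈ IA k from ?_)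
        rw [← av]
        exact Ideal.mul_mem_right _ _ a_mem
    exact this h

/-- `((a, b) : u) = (a, b, c)` -/
lemma colon6 (f : T k) : u * f ∈ IA k ⊔ IB k ↔ f ∈ IA k ⊔ IB k ⊔ IC k := by
  constructor
  · intro h
    rw [← ker_εI]
    have h1 : εI (u * f) = 0 := by
      rw [ker_εI]
      exact Ideal.mem_sup_left h
    rw [map_mul] at h1
    refine (mul_eq_zero.1 h1).resolve_left ?_
    simp [εI, u, mq_y]
  · intro h
    have : IA k ⊔ IB k ⊔ IC k ≤ Submodule.comap (LinearMap.mulLeft (T k) u) (IA k ⊔ IB k) := by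
      refine sup_le (fun x hx => Ideal.mul_mem_left _ _ hx) ?_
      refine (Ideal.span_singleton_le_iff_mem _).2 (show (u * c : T k) ∈ IA k ⊔ IB k from ?_)
      rw [u_mul_c]
      exact Ideal.mul_mem_left _ _ (Ideal.mem_sup_right b_mem)
    exact this h

/-- `((a, u) : v) = (a, b, u)` -/
lemma colon7 (f : T k) : v * f ∈ IA k ⊔ IU k ↔ f ∈ IA k ⊔ IB k ⊔ IU k := by
  constructor
  · intro h
    rw [← ker_εF]
    have h1 : εF (v * f) = 0 := by
      rw [ker_εF]
      exact (show IA k ⊔ IU k ≤ IA k ⊔ IB k ⊔ IU k from sup_le_sup_right le_sup_left _) h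
    rw [map_mul] at h1
    refine (mul_eq_zero.1 h1).resolve_left ?_
    simp [εF, v, mq_x]
  · intro h
    exact Ideal.mem_sup_right ((colon3 f).2 h)

/-- `((u, v) : a) = (u, v)` -/
lemma colon8 (f : T k) : a * f ∈ IU k ⊔ IV k ↔ f ∈ IU k ⊔ IV k := by
  rw [← ker_εK, ← ker_εK, map_mul]
  constructor
  · intro h
    exact (mul_eq_zero.1 h).resolve_left px_ne
  · intro h
    rw [h, mul_zero]

end Pool.Agent.TH215.CI.T
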