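import Pool.Agent.TH215.CI.N

/-!
More colon ideals in `T` and in the local ring.
-/

set_option autoImplicit false

namespace Pool.Agent.TH215.CI

open T MvPolynomial

variable {k : Type} [Field k]

lemma spanAB : (Ideal.span {a, b} : Ideal (T k)) = IA k ⊔ IB k := by
  rw [Ideal.span_insert]; rfl

lemma spanABC : (Ideal.span {a, b, c} : Ideal (T k)) = IA k ⊔ IB k ⊔ IC k := by
  rw [Ideal.span_insert, Ideal.span_insert, ← sup_assoc]; rfl

lemma spanABU : (Ideal.span {a, b, u} : Ideal (T k)) = IA k ⊔ IB k ⊔ IU k := by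
  rw [Ideal.span_insert, Ideal.span_insert, ← sup_assoc]; rfl

/-- `(a) : u = (a, b)` -/
lemma B1 (f : T k) (h : u * f ∈ (Ideal.span {a} : Ideal (T k))) :
    f ∈ (Ideal.span {a, b} : Ideal (T k)) := by
  rw [Ideal.mem_span_singleton'] at h
  obtain ⟨g, hg⟩ := h
  have h0 := congrArg T.e0 hg
  have h1 := congrArg T.e1 hg
  have h2 := congrArg T.e2 hg
  have h3 := congrArg T.e3 hg
  simp [a, u] at h0 h1 h2 h3
  have g0 : g.e0 = 0 := h0.resolve_right px_ne
  rw [g0] at h2
  have f1 : f.e1 = px * f.e3 + pz * g.e3 := by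
    apply mul_left_cancel₀ pz_ne
    linear_combination h2
  have e : f = (⟨g.e1 - py * f.e3, f.e3, 0, 0⟩ : T k) * a +
      (⟨g.e2 + pz * f.e3, g.e3, 0, 0⟩ : T k) * b := by
    ext1
    · simp [a, b]; rw [f1] at h1; linear_combination - h1
    · simp [a, b]; linear_combination f1
    · simp [a, b]; linear_combination - h3
    · simp [a, b]
  rw [e]
  exact Ideal.add_mem _ (Ideal.mul_mem_left _ _ (Ideal.subset_span (by simp)))
    (Ideal.mul_mem_left _ _ (Ideal.subset_span (by simp)))

/-- `(a, b) : u = (a, b, c)` -/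
lemma B2 (f : T k) (h : u * f ∈ (Ideal.span {a, b} : Ideal (T k))) :
    f ∈ (Ideal.span {a, b, c} : Ideal (T k)) := by
  rw [spanABC]
  rw [spanAB] at h
  exact (colon6 f).1 h

lemma px_mem_auv : algebraMap (P k) (T k) px ∈ (Ideal.span {a, v} : Ideal (T k)) := by
  have : algebraMap (P k) (T k) px = a - v := by ext1 <;> simp [a, v]
  rw [this]
  exact Ideal.sub_mem _ (Ideal.subset_span (by simp)) (Ideal.subset_span (by simp))

lemma mem_auv (f : T k) : f ∈ (Ideal.span {a, u, v} : Ideal (T k)) ↔ px ∣ f.e0 := by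
  constructor
  · intro h
    have : (Ideal.span {a, u, v} : Ideal (T k)) ≤
        (Ideal.span {(px : P k)}).comap (εK : T k →+* P k) := by
      rw [Ideal.span_le]
      rintro _ (rfl | rfl | rfl) <;> rw [SetLike.mem_coe, Ideal.mem_comap] <;>
        simp [εK, a, u, v]
    have h1 := this h
    rw [Ideal.mem_comap, Ideal.mem_span_singleton] at h1
    exact h1
  · rintro ⟨g, hg⟩
    have e : f = algebraMap (P k) (T k) px * algebraMap (P k) (T k) g +
        (algebraMap _ (T k) f.e1 + algebraMap _ (T k) f.e3 * v) * u +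
        algebraMap _ (T k) f.e2 * v := by
      ext1 <;> simp [u, v, hg]
    rw [e]
    have h1 : (Ideal.span {a, v} : Ideal (T k)) ≤ Ideal.span {a, u, v} :=
      Ideal.span_mono (by intro x hx; simp at hx ⊢; tauto)
    exact Ideal.add_mem _ (Ideal.add_mem _ (Ideal.mul_mem_right _ _ (h1 px_mem_auv))
      (Ideal.mul_mem_left _ _ (Ideal.subset_span (by simp))))
      (Ideal.mul_mem_left _ _ (Ideal.subset_span (by simp)))

/-- `b` is regular modulo `(a, u, v)` -/
lemma B3 (f : T k) (h : b * f ∈ (Ideal.span {a, u, v} : Ideal (T k))) :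
    f ∈ (Ideal.span {a, u, v} : Ideal (T k)) := by
  rw [mem_auv] at h ⊢
  have h1 : (b * f).e0 = pz * f.e0 := rfl
  rw [h1] at h
  exact ((X_prime (R := k) (i := (0 : Fin 3))).dvd_or_dvd h).resolve_left
    (not_dvd (by decide))

lemma mem_abuv (f : T k) : f ∈ (Ideal.span {a, b, u, v} : Ideal (T k)) ↔
    f.e0 ∈ (Ideal.span {px, pz} : Ideal (P k)) := by
  constructor
  · intro h
    have : (Ideal.span {a, b, u, v} : Ideal (T k)) ≤
        (Ideal.span {px, pz}).comap (εK : T k →+* P k) := by
      rw [Ideal.span_le]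
      rintro _ (rfl | rfl | rfl | rfl) <;> rw [SetLike.mem_coe, Ideal.mem_comap]
      · exact Ideal.subset_span (by simp [εK, a])
      · exact Ideal.subset_span (by simp [εK, b])
      · simp [εK, u]
      · simp [εK, v]
    exact this h
  · intro h
    rw [Ideal.mem_span_pair] at h
    obtain ⟨g, g', hg⟩ := h
    have e : f = algebraMap (P k) (T k) px * algebraMap (P k) (T k) g +
        algebraMap (P k) (T k) g' * b +
        (algebraMap _ (T k) f.e1 + algebraMap _ (T k) f.e3 * v) * u +
        algebraMap _ (T k) f.e2 * v := by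
      ext1 <;> simp [u, v, b]
      linear_combination - hg
    rw [e]
    have h1 : (Ideal.span {a, v} : Ideal (T k)) ≤ Ideal.span {a, b, u, v} :=
      Ideal.span_mono (by intro x hx; simp at hx ⊢; tauto)
    exact Ideal.add_mem _ (Ideal.add_mem _ (Ideal.add_mem _
      (Ideal.mul_mem_right _ _ (h1 px_mem_auv))
      (Ideal.mul_mem_left _ _ (Ideal.subset_span (by simp))))
      (Ideal.mul_mem_left _ _ (Ideal.subset_span (by simp))))
      (Ideal.mul_mem_left _ _ (Ideal.subset_span (by simp)))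

lemma pair_eq (i j : Fin 3) : (Ideal.span {(X i : P k), X j} : Ideal (P k)) =
    Ideal.span ((fun s => monomial s (1 : k)) ''
      ({Finsupp.single i 1, Finsupp.single j 1} : Set (Fin 3 →₀ ℕ))) := by
  rw [Set.image_pair]
  rfl

lemma mono_pair (i j l : Fin 3) (hi : i ≠ l) (hj : j ≠ l) (f : P k)
    (h : X l * f ∈ (Ideal.span {(X i : P k), X j} : Ideal (P k))) :
    f ∈ (Ideal.span {(X i : P k), X j} : Ideal (P k)) := by
  rw [pair_eq] at h ⊢
  refine mono_colon _ (Finsupp.single l 1) ?_ f h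
  rintro _ (rfl | rfl) m
  · by_cases hm : m = l
    · subst hm
      left
      rw [Finsupp.single_apply, if_neg hi]
    · right
      rw [Finsupp.single_apply, if_neg (Ne.symm hm)]
  · by_cases hm : m = l
    · subst hm
      left
      rw [Finsupp.single_apply, if_neg hj]
    · right
      rw [Finsupp.single_apply, if_neg (Ne.symm hm)]

/-- `c` is regular modulo `(a, b, u, v)` -/
lemma B4 (f : T k) (h : c * f ∈ (Ideal.span {a, b, u, v} : Ideal (T k))) :
    f ∈ (Ideal.span {a, b, u, v} : Ideal (T k)) := by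
  rw [mem_abuv] at h ⊢
  have h1 : (c * f).e0 = py * f.e0 := rfl
  rw [h1] at h
  exact mono_pair 0 2 1 (by decide) (by decide) _ h

/-- `v` is regular modulo `(a, b, u)` -/
lemma B5 (f : T k) (h : v * f ∈ (Ideal.span {a, b, u} : Ideal (T k))) :
    f ∈ (Ideal.span {a, b, u} : Ideal (T k)) := by
  rw [spanABU, ← ker_εF] at h ⊢
  rw [map_mul] at h
  refine (mul_eq_zero.1 h).resolve_left ?_
  simp [εF, v, mq_x]

/-- `c` is regular modulo `(a, b, u)` -/
lemma B7 (f : T k) (h : c * f ∈ (Ideal.span {a, b, u} : Ideal (T k))) :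
    f ∈ (Ideal.span {a, b, u} : Ideal (T k)) := by
  rw [spanABU, ← ker_εF] at h ⊢
  rw [map_mul] at h
  refine (mul_eq_zero.1 h).resolve_left ?_
  simp [εF, c, mq_y]

lemma hle_G : (Ideal.span {(pz : P k)} : Ideal (P k)) ≤ Ideal.span {py, pz} :=
  Ideal.span_mono (by simp)

/-- the projection `T → T / (a, b, c, u)` -/
noncomputable def εG : T k →+* (P k ⧸ (Ideal.span {py, pz} : Ideal (P k))) :=
  (Ideal.Quotient.factor hle_G).comp εF

lemma εG_apply (f : T k) : εG f = Ideal.Quotient.mk _ (f.e0 - px * f.e2) := by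
  rw [map_sub, map_mul]
  change Ideal.Quotient.factor hle_G (mq f.e0 - mq px * mq f.e2) = _
  rw [map_sub, map_mul]
  rfl

lemma mem_abcu (f : T k) : f ∈ (Ideal.span {a, b, c, u} : Ideal (T k)) ↔
    f.e0 - px * f.e2 ∈ (Ideal.span {py, pz} : Ideal (P k)) := by
  constructor
  · intro h
    have : (Ideal.span {a, b, c, u} : Ideal (T k)) ≤ RingHom.ker (εG : T k →+* _) := by
      rw [Ideal.span_le]
      rintro _ (rfl | rfl | rfl | rfl) <;> rw [SetLike.mem_coe, RingHom.mem_ker, εG_apply,
        Ideal.Quotient.eq_zero_iff_mem]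
      · simp [a]
      · exact Ideal.subset_span (by simp [b])
      · exact Ideal.subset_span (by simp [c])
      · simp [u]
    have h1 := this h
    rw [RingHom.mem_ker, εG_apply, Ideal.Quotient.eq_zero_iff_mem] at h1
    exact h1
  · intro h
    rw [Ideal.mem_span_pair] at h
    obtain ⟨g, g', hg⟩ := h
    have e : f = algebraMap (P k) (T k) f.e2 * a + algebraMap (P k) (T k) g' * b +
        algebraMap (P k) (T k) g * c +
        (algebraMap (P k) (T k) (f.e1 + g) + algebraMap _ (T k) f.e3 * v) * u := by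
      ext1
      · simp [a, b, c, u, v]
        linear_combination - hg
      · simp [a, b, c, u, v]
      · simp [a, b, c, u, v]
      · simp [a, b, c, u, v]
    rw [e]
    exact Ideal.add_mem _ (Ideal.add_mem _ (Ideal.add_mem _
      (Ideal.mul_mem_left _ _ (Ideal.subset_span (by simp)))
      (Ideal.mul_mem_left _ _ (Ideal.subset_span (by simp))))
      (Ideal.mul_mem_left _ _ (Ideal.subset_span (by simp))))
      (Ideal.mul_mem_left _ _ (Ideal.subset_span (by simp)))

/-- `v` is regular modulo `(a, b, c, u)` -/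
lemma B6 (f : T k) (h : v * f ∈ (Ideal.span {a, b, c, u} : Ideal (T k))) :
    f ∈ (Ideal.span {a, b, c, u} : Ideal (T k)) := by
  rw [mem_abcu] at h ⊢
  have hz : (pz : P k) ∈ (Ideal.span {py, pz} : Ideal (P k)) := Ideal.subset_span (by simp)
  have e : px * (f.e0 - px * f.e2) =
      - ((v * f).e0 - px * (v * f).e2) + (px * pz * f.e3) * pz := by
    simp [v]
    ring
  have h1 : px * (f.e0 - px * f.e2) ∈ (Ideal.span {py, pz} : Ideal (P k)) := by
    rw [e]
    exact Ideal.add_mem _ (Submodule.neg_mem _ h) (Ideal.mul_mem_left _ _ hz)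
  exact mono_pair 1 2 0 (by decide) (by decide) _ h1

/-! ### the local ring -/

variable (k) in
/-- Colon ideals localize. -/
lemma colon_loc (I J : Ideal (T k)) (t : T k) (h : ∀ f, t * f ∈ I → f ∈ J) (f : RL k)
    (hf : ι k t * f ∈ I.map (algebraMap (T k) (RL k))) : f ∈ J.map (algebraMap (T k) (RL k)) := by
  obtain ⟨⟨g, s⟩, hg⟩ := IsLocalization.surj (mT k).primeCompl f
  have h1 : algebraMap (T k) (RL k) (t * g) ∈ I.map (algebraMap (T k) (RL k)) := by
    rw [map_mul, ← hg, ← mul_assoc]
    exact Ideal.mul_mem_right _ _ hf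
  rw [IsLocalization.algebraMap_mem_map_algebraMap_iff (mT k).primeCompl] at h1
  obtain ⟨m, hm, h2⟩ := h1
  have h3 := h (m * g) (by rwa [mul_left_comm])
  have h4 : algebraMap (T k) (RL k) g ∈ J.map (algebraMap (T k) (RL k)) := by
    rw [IsLocalization.algebraMap_mem_map_algebraMap_iff (mT k).primeCompl]
    exact ⟨m, hm, h3⟩
  rw [← hg] at h4
  exact (Ideal.mul_unit_mem_iff_mem _ (IsLocalization.map_units (RL k) s)).1 h4

end Pool.Agent.TH215.CI
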