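import Pool.Agent.H578R3.TorBridge

/-!
`Tor_1(M, N) = 0` in terms of a presentation of `M`.
-/

set_option autoImplicit false

namespace Pool.Agent.TH215.CI

open Function TensorProduct CategoryTheory CategoryTheory.Limits MonoidalCategory
open Pool.Agent.H578R3.TorRigid

section

variable {R : Type*} [CommRing R] {K F M : Type*} [AddCommGroup K] [Module R K]
  [AddCommGroup F] [Module R F] [AddCommGroup M] [Module R M]
variable {P : ℕ → Type*} [∀ i, AddCommGroup (P i)] [∀ i, Module R (P i)]
  [∀ i, Module.Flat R (P (i + 1))]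
variable (d : ∀ i, P (i + 1) →ₗ[R] P i) (hex : ∀ i, Exact (d (i + 1)) (d i))
  (hsurj : Surjective (d 0))
variable (ι : K →ₗ[R] F) (π : F →ₗ[R] M) (hι : Injective ι) (hπ : Surjective π)
  (hιπ : Exact ι π) [Module.Flat R F]

include hex hι hπ hιπ hsurj

theorem inj_of_exactAt_one (hE : ExactAt R M d 1) : Injective (LinearMap.lTensor (P 0) ι) := by
  have hF : ExactAt R F d 0 := Module.Flat.rTensor_exact F (hex 0)
  rw [← LinearMap.ker_eq_bot, LinearMap.ker_eq_bot']
  intro z hz
  obtain ⟨z1, rfl⟩ := LinearMap.rTensor_surjective K hsurj z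
  have h1 : LinearMap.rTensor F (d 0) (LinearMap.lTensor _ ι z1) = 0 := by
    rw [← LinearMap.comp_apply, LinearMap.rTensor_comp_lTensor,
      ← LinearMap.lTensor_comp_rTensor, LinearMap.comp_apply, hz]
  obtain ⟨v, hv⟩ := (hF _).1 h1
  have h2 : LinearMap.rTensor M (d 1) (LinearMap.lTensor _ π v) = 0 := by
    rw [← LinearMap.comp_apply, LinearMap.rTensor_comp_lTensor,
      ← LinearMap.lTensor_comp_rTensor, LinearMap.comp_apply, hv, ← LinearMap.comp_apply,
      ← LinearMap.lTensor_comp, hιπ.linearMap_comp_eq_zero, LinearMap.lTensor_zero,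
      LinearMap.zero_apply]
  obtain ⟨u, hu⟩ := (hE _).1 h2
  obtain ⟨u', rfl⟩ := LinearMap.lTensor_surjective _ hπ u
  have h3 : LinearMap.lTensor _ π (v - LinearMap.rTensor F (d 2) u') = 0 := by
    rw [map_sub, sub_eq_zero, ← hu, ← LinearMap.comp_apply, ← LinearMap.comp_apply,
      LinearMap.rTensor_comp_lTensor, LinearMap.lTensor_comp_rTensor]
  obtain ⟨y, hy⟩ := ((lTensor_exact _ hιπ hπ) _).1 h3
  have h4 : z1 = LinearMap.rTensor K (d 1) y := by
    apply Module.Flat.lTensor_preserves_injective_linearMap (M := P 1) ι hι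
    rw [← hv, ← LinearMap.comp_apply (LinearMap.lTensor _ ι), LinearMap.lTensor_comp_rTensor,
      ← LinearMap.rTensor_comp_lTensor, LinearMap.comp_apply, hy, map_sub,
      dd_zero d hex F 1, sub_zero]
  rw [h4, dd_zero d hex K 0]

theorem exactAt_one_of_inj (hinj : Injective (LinearMap.lTensor (P 0) ι)) :
    ExactAt R M d 1 := by
  have hF : ExactAt R F d 1 := Module.Flat.rTensor_exact F (hex 1)
  intro u
  constructor
  · intro hu
    obtain ⟨u', rfl⟩ := LinearMap.lTensor_surjective _ hπ u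
    have h1 : LinearMap.lTensor _ π (LinearMap.rTensor F (d 1) u') = 0 := by
      rw [← LinearMap.comp_apply, LinearMap.lTensor_comp_rTensor,
        ← LinearMap.rTensor_comp_lTensor, LinearMap.comp_apply, hu]
    obtain ⟨z, hz⟩ := ((lTensor_exact _ hιπ hπ) _).1 h1
    have h2 : LinearMap.rTensor K (d 0) z = 0 := by
      apply hinj
      rw [map_zero, ← LinearMap.comp_apply, LinearMap.lTensor_comp_rTensor,
        ← LinearMap.rTensor_comp_lTensor, LinearMap.comp_apply, hz, dd_zero d hex F 0]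
    have hK : Exact (LinearMap.rTensor K (d 1)) (LinearMap.rTensor K (d 0)) :=
      rTensor_exact K (hex 0) hsurj
    obtain ⟨y, rfl⟩ := (hK z).1 h2
    have h3 : LinearMap.rTensor F (d 1) (u' - LinearMap.lTensor _ ι y) = 0 := by
      rw [map_sub, sub_eq_zero, ← hz, ← LinearMap.comp_apply, ← LinearMap.comp_apply,
        LinearMap.rTensor_comp_lTensor, LinearMap.lTensor_comp_rTensor]
    obtain ⟨v, hv⟩ := (hF _).1 h3
    refine ⟨LinearMap.lTensor _ π v, ?_⟩
    rw [← LinearMap.comp_apply, LinearMap.rTensor_comp_lTensor,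
      ← LinearMap.lTensor_comp_rTensor, LinearMap.comp_apply, hv, map_sub,
      ← LinearMap.comp_apply (LinearMap.lTensor _ π) (LinearMap.lTensor _ ι),
      ← LinearMap.lTensor_comp, hιπ.linearMap_comp_eq_zero, LinearMap.lTensor_zero,
      LinearMap.zero_apply, sub_zero]
  · rintro ⟨x, rfl⟩
    exact dd_zero d hex M 1 x

end

universe w

/-- `Tor_1(M, N) = 0` iff `N ⊗ K → N ⊗ F` is injective, for `0 → K → F → M → 0` with `F` flat. -/
theorem tor_one_iff {R : Type w} [CommRing R] {K F M N : Type w} [AddCommGroup K] [Module R K]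
    [AddCommGroup F] [Module R F] [AddCommGroup M] [Module R M] [AddCommGroup N] [Module R N]
    (ι : K →ₗ[R] F) (π : F →ₗ[R] M) (hι : Injective ι) (hπ : Surjective π)
    (hιπ : Exact ι π) [Module.Flat R F] :
    IsZero (((Tor (ModuleCat.{w} R) 1).obj (ModuleCat.of R M)).obj (ModuleCat.of R N)) ↔
      Injective (LinearMap.lTensor N ι) := by
  rw [tor_isZero_iff N (res N) M 0]
  constructor
  · intro hE
    exact inj_of_exactAt_one (dd N (res N)) (dd_exact N (res N)) (dd_surj N (res N)) ι π hι hπ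
      hιπ hE
  · intro hinj
    exact exactAt_one_of_inj (dd N (res N)) (dd_exact N (res N)) (dd_surj N (res N)) ι π hι hπ
      hιπ hinj

/-- `Tor_2(M, N) = 0` iff `Tor_1(K, N) = 0`, for `0 → K → F → M → 0` with `F` flat. -/
theorem tor_two_imp {R : Type w} [CommRing R] {K F M N : Type w} [AddCommGroup K] [Module R K]
    [AddCommGroup F] [Module R F] [AddCommGroup M] [Module R M] [AddCommGroup N] [Module R N]
    (ι : K →ₗ[R] F) (π : F →ₗ[R] M) (hι : Injective ι) (hπ : Surjective π)
    (hιπ : Exact ι π) [Module.Flat R F]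
    (h : IsZero (((Tor (ModuleCat.{w} R) 2).obj (ModuleCat.of R M)).obj (ModuleCat.of R N))) :
    IsZero (((Tor (ModuleCat.{w} R) 1).obj (ModuleCat.of R K)).obj (ModuleCat.of R N)) := by
  rw [tor_isZero_iff N (res N) M 1] at h
  rw [tor_isZero_iff N (res N) K 0]
  exact shift_down (dd N (res N)) (dd_exact N (res N)) ι π hι hπ hιπ 0 h

end Pool.Agent.TH215.CI
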