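import Pool.Agent.TH215.CI.Tor1
import Pool.Agent.TH215.CI.Gen2

/-!
`Tor_1(W, W) = 0` and `Tor_2(W, W) ≠ 0`.
-/

set_option autoImplicit false

namespace Pool.Agent.TH215.CI

open Function TensorProduct CategoryTheory CategoryTheory.Limits

section

variable {R : Type} [CommRing R] (a b c u v : R)

/-- the module `W` -/
abbrev WM : Type := (Fin 3 → R) ⧸ KW a b c u v

/-- the first generator of `KW` -/
def k1 : KW a b c u v := ⟨pv1 a b c, Submodule.subset_span (by simp)⟩
/-- the second generator of `KW` -/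
def k2 : KW a b c u v := ⟨pv2 u v, Submodule.subset_span (by simp)⟩

lemma exists_k (x : KW a b c u v) : ∃ G H : R, x = G • k1 a b c u v + H • k2 a b c u v := by
  obtain ⟨x, hx⟩ := x
  obtain ⟨G, H, rfl⟩ := Submodule.mem_span_pair.1 hx
  exact ⟨G, H, rfl⟩

variable {a b c u v} (h : Hyp a b c u v)

include h in
theorem Hyp.tor_one : IsZero (((Tor (ModuleCat R) 1).obj (ModuleCat.of R (WM a b c u v))).obj
    (ModuleCat.of R (WM a b c u v))) := by
  rw [tor_one_iff (KW a b c u v).subtype (KW a b c u v).mkQ (Submodule.injective_subtype _)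
    (Submodule.mkQ_surjective _) (LinearMap.exact_subtype_mkQ _)]
  rw [← LinearMap.ker_eq_bot, LinearMap.ker_eq_bot']
  intro z hz
  have hz' : ∃ w1 w2 : WM a b c u v, z = w1 ⊗ₜ k1 a b c u v + w2 ⊗ₜ k2 a b c u v := by
    clear hz
    induction z using TensorProduct.induction_on with
    | zero => exact ⟨0, 0, by simp⟩
    | tmul w x =>
      obtain ⟨G, H, rfl⟩ := exists_k a b c u v x
      refine ⟨G • w, H • w, ?_⟩
      rw [TensorProduct.tmul_add, TensorProduct.tmul_smul, TensorProduct.tmul_smul,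
        TensorProduct.smul_tmul', TensorProduct.smul_tmul']
    | add x y hx hy =>
      obtain ⟨w1, w2, rfl⟩ := hx
      obtain ⟨w3, w4, rfl⟩ := hy
      refine ⟨w1 + w3, w2 + w4, ?_⟩
      rw [TensorProduct.add_tmul, TensorProduct.add_tmul]
      abel
  obtain ⟨w1, w2, rfl⟩ := hz'
  have h1 : ∀ i, pv1 a b c i • w1 + pv2 u v i • w2 = 0 := by
    intro i
    have := congrArg (fun z => TensorProduct.rid R (WM a b c u v)
      (LinearMap.lTensor (WM a b c u v) (LinearMap.proj i : (Fin 3 → R) →ₗ[R] R) z)) hz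
    simpa [k1, k2] using this
  obtain ⟨t, rfl, rfl⟩ := h.E2 w1 w2 h1
  have h2 : ∀ i, pv2 u v i • k1 a b c u v = pv1 a b c i • k2 a b c u v := by
    intro i
    apply Subtype.ext
    funext j
    change pv2 u v i * pv1 a b c j = pv1 a b c i * pv2 u v j
    rw [mul_comm, h.minor j i, mul_comm]
  rw [TensorProduct.neg_tmul, TensorProduct.sum_tmul, TensorProduct.sum_tmul, ← sub_eq_add_neg,
    sub_eq_zero]
  refine Finset.sum_congr rfl fun i _ => ?_
  rw [TensorProduct.smul_tmul, TensorProduct.smul_tmul, h2]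

variable (a b c u v) in
/-- the map `R² → KW` -/
def βW : (Fin 2 → R) →ₗ[R] KW a b c u v where
  toFun g := g 0 • k1 a b c u v + g 1 • k2 a b c u v
  map_add' x y := by
    simp only [Pi.add_apply, add_smul]
    abel
  map_smul' r x := by
    simp only [Pi.smul_apply, smul_eq_mul, mul_smul, smul_add, RingHom.id_apply]

lemma βW_surj : Surjective (βW a b c u v) := by
  intro x
  obtain ⟨G, H, rfl⟩ := exists_k a b c u v x
  exact ⟨![G, H], rfl⟩

lemma mem_kerW {x : Fin 2 → R} (hx : x ∈ LinearMap.ker (βW a b c u v)) :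
    a * x 0 + u ^ 2 * x 1 = 0 := by
  have h1 := congrArg (fun z : KW a b c u v => (z : Fin 3 → R) 0) (LinearMap.mem_ker.1 hx)
  simp [βW, k1, k2, pv1, pv2] at h1
  linear_combination h1

include h in
lemma Hyp.mem_kerW1 {x : Fin 2 → R} (hx : x ∈ LinearMap.ker (βW a b c u v)) :
    x 1 ∈ Ideal.span {a, b, c} := by
  obtain ⟨t, -, ht⟩ := h.syz _ _ (mem_kerW hx)
  rw [ht]
  refine Submodule.neg_mem _ (Ideal.add_mem _ (Ideal.add_mem _ ?_ ?_) ?_) <;>
    exact Ideal.mul_mem_right _ _ (Ideal.subset_span (by simp))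

include h in
lemma Hyp.n_mem (i : Fin 3) : ![pv2 u v i, - pv1 a b c i] ∈ LinearMap.ker (βW a b c u v) := by
  rw [LinearMap.mem_ker]
  apply Subtype.ext
  funext j
  change pv2 u v i * pv1 a b c j + (- pv1 a b c i) * pv2 u v j = 0
  rw [mul_comm, h.minor j i]
  ring

/-- the syzygies -/
def Hyp.n (i : Fin 3) : LinearMap.ker (βW a b c u v) := ⟨_, h.n_mem i⟩

include h in
theorem Hyp.tor_two {κ : Type} [Field κ] (τ : R →+* DualNumber κ)
    (fa : TrivSqZeroExt.fst (τ a) = 0) (fb : TrivSqZeroExt.fst (τ b) = 0)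
    (fc : TrivSqZeroExt.fst (τ c) = 0) (fu : TrivSqZeroExt.fst (τ u) = 0)
    (sa : TrivSqZeroExt.snd (τ a) = 1) :
    ¬ IsZero (((Tor (ModuleCat R) 2).obj (ModuleCat.of R (WM a b c u v))).obj
      (ModuleCat.of R (WM a b c u v))) := by
  intro h0
  have h1 := tor_two_imp (KW a b c u v).subtype (KW a b c u v).mkQ
    (Submodule.injective_subtype _) (Submodule.mkQ_surjective _) (LinearMap.exact_subtype_mkQ _) h0
  rw [tor_one_iff (LinearMap.ker (βW a b c u v)).subtype (βW a b c u v)
    (Submodule.injective_subtype _) βW_surj (LinearMap.exact_subtype_ker_map _)] at h1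
  let ev : R →+* κ := (TrivSqZeroExt.fstHom κ κ κ).toRingHom.comp τ
  let _ : Module R κ := Module.compHom κ ev
  have smul_def : ∀ (r : R) (x : κ), r • x = TrivSqZeroExt.fst (τ r) * x := fun r x => rfl
  let μ0 : (Fin 3 → R) →ₗ[R] κ :=
    { toFun := fun r => TrivSqZeroExt.fst (τ (r 0))
      map_add' := fun x y => by simp
      map_smul' := fun r x => by
        rw [RingHom.id_apply, smul_def]
        simp }
  let μ : WM a b c u v →ₗ[R] κ := Submodule.liftQ _ μ0 (by
    rw [KW, Submodule.span_le]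
    rintro _ (rfl | rfl)
    · exact fa
    · change TrivSqZeroExt.fst (τ (u ^ 2)) = 0
      rw [map_pow, pow_two, TrivSqZeroExt.fst_mul, fu, zero_mul])
  have hf : ∀ x ∈ Ideal.span {a, b, c}, TrivSqZeroExt.fst (τ x) = 0 := by
    intro x hx
    obtain ⟨s, t, r, rfl⟩ := mem3 hx
    simp [fa, fb, fc]
  let l : LinearMap.ker (βW a b c u v) →ₗ[R] κ :=
    { toFun := fun x => - TrivSqZeroExt.snd (τ ((x : Fin 2 → R) 1))
      map_add' := fun x y => by
        simp only [Submodule.coe_add, Pi.add_apply, map_add, TrivSqZeroExt.snd_add]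
        ring
      map_smul' := fun r x => by
        rw [RingHom.id_apply, smul_def]
        change - TrivSqZeroExt.snd (τ (r * (x : Fin 2 → R) 1)) = _
        rw [map_mul, TrivSqZeroExt.snd_mul, hf _ (h.mem_kerW1 x.2)]
        simp }
  let ε : Fin 3 → WM a b c u v := fun i => (KW a b c u v).mkQ (Pi.single i 1)
  have z1 : (KW a b c u v).mkQ (pv1 a b c) = 0 := by
    rw [Submodule.mkQ_apply, Submodule.Quotient.mk_eq_zero]
    exact Submodule.subset_span (by simp)
  have z2 : (KW a b c u v).mkQ (pv2 u v) = 0 := by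
    rw [Submodule.mkQ_apply, Submodule.Quotient.mk_eq_zero]
    exact Submodule.subset_span (by simp)
  have hsum : ∀ p : Fin 3 → R, ∑ i, p i • ε i = (KW a b c u v).mkQ p := by
    intro p
    have : p = ∑ i, p i • (Pi.single i 1 : Fin 3 → R) := by
      funext j
      simp [Finset.sum_apply, Pi.single_apply]
    conv_rhs => rw [this]
    rw [map_sum]
    simp only [map_smul]
    rfl
  have hω : ∑ i, ε i ⊗ₜ[R] h.n i = 0 := by
    apply h1
    rw [map_zero, map_sum]
    have e1 : ∀ i, LinearMap.lTensor (WM a b c u v) (LinearMap.ker (βW a b c u v)).subtype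
        (ε i ⊗ₜ[R] h.n i) = (pv2 u v i • ε i) ⊗ₜ (Pi.single 0 1 : Fin 2 → R) -
          (pv1 a b c i • ε i) ⊗ₜ (Pi.single 1 1 : Fin 2 → R) := by
      intro i
      rw [LinearMap.lTensor_tmul, TensorProduct.smul_tmul, TensorProduct.smul_tmul,
        ← TensorProduct.tmul_sub]
      congr 1
      funext j
      fin_cases j <;> simp [Hyp.n]
    rw [Finset.sum_congr rfl fun i _ => e1 i, Finset.sum_sub_distrib, ← TensorProduct.sum_tmul,
      ← TensorProduct.sum_tmul, hsum, hsum, z1, z2]
    simp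
  let B : WM a b c u v →ₗ[R] LinearMap.ker (βW a b c u v) →ₗ[R] κ :=
    LinearMap.mk₂ R (fun w n => μ w * l n)
      (fun x y n => by rw [map_add, add_mul])
      (fun r x n => by rw [map_smul, smul_def, smul_def, mul_assoc])
      (fun x m n => by rw [map_add, mul_add])
      (fun r x n => by rw [map_smul, smul_def, smul_def, mul_left_comm])
  have h2 := congrArg (TensorProduct.lift B) hω
  rw [map_sum, map_zero] at h2
  have e2 : ∀ i, TensorProduct.lift B (ε i ⊗ₜ[R] h.n i) =
      TrivSqZeroExt.fst (τ ((Pi.single i 1 : Fin 3 → R) 0)) *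
        (- TrivSqZeroExt.snd (τ (- pv1 a b c i))) := fun i => rfl
  rw [Finset.sum_congr rfl fun i _ => e2 i, Fin.sum_univ_three] at h2
  simp [pv1, sa] at h2

end

end Pool.Agent.TH215.CI
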