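import Pool.Agent.TH215.CI.T3
import Pool.Agent.TH215.CI.Tor2

/-!
The module `W` over the local ring `R = RL k`.
-/

set_option autoImplicit false

open CategoryTheory CategoryTheory.Limits

namespace Pool.Agent.TH215.CI

section gen

variable {R : Type} [CommRing R]

theorem loc_equiv_of {M N : Type} [AddCommGroup M] [Module R M] [AddCommGroup N] [Module R N]
    (Φ : M →ₗ[R] N) (Ψ : N →ₗ[R] M) (s : R) (h1 : ∀ x, Ψ (Φ x) = s • x)
    (h2 : ∀ y, Φ (Ψ y) = s • y) (p : Ideal R) [p.IsPrime] (hs : s ∉ p) :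
    Nonempty (LocalizedModule p.primeCompl M ≃ₗ[Localization.AtPrime p]
      LocalizedModule p.primeCompl N) := by
  let Φ' := LocalizedModule.map p.primeCompl Φ
  refine ⟨LinearEquiv.ofBijective Φ' ⟨?_, ?_⟩⟩
  · rw [← LinearMap.ker_eq_bot, LinearMap.ker_eq_bot']
    intro x hx
    induction x using LocalizedModule.induction_on with
    | h m d =>
      have e1 : Φ' (LocalizedModule.mk m d) = LocalizedModule.mk (Φ m) d :=
        LocalizedModule.map_mk _ _ _ _
      rw [e1, ← LocalizedModule.zero_mk d, LocalizedModule.mk_eq] at hx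
      obtain ⟨t, ht⟩ := hx
      rw [← LocalizedModule.zero_mk d, LocalizedModule.mk_eq]
      refine ⟨t * ⟨s, hs⟩, ?_⟩
      have e2 := congrArg Ψ ht
      simp only [smul_zero, Submonoid.smul_def, map_smul, h1] at e2 ⊢
      rw [map_zero] at e2
      rw [← e2]
      simp only [smul_smul, Submonoid.coe_mul]
      congr 1
      ring
  · intro x
    induction x using LocalizedModule.induction_on with
    | h m d =>
      refine ⟨LocalizedModule.mk (Ψ m) (⟨s, hs⟩ * d), ?_⟩
      have e1 : Φ' (LocalizedModule.mk (Ψ m) (⟨s, hs⟩ * d)) =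
        LocalizedModule.mk (Φ (Ψ m)) (⟨s, hs⟩ * d) := LocalizedModule.map_mk _ _ _ _
      rw [e1, LocalizedModule.mk_eq, h2]
      refine ⟨1, ?_⟩
      simp only [one_smul]
      change (d : R) • (s • m) = (s * (d : R)) • m
      rw [smul_smul, mul_comm]

theorem loc_pi (p : Ideal R) [p.IsPrime] (n : ℕ) :
    Nonempty (LocalizedModule p.primeCompl (Fin n → R) ≃ₗ[Localization.AtPrime p]
      (Fin n → Localization.AtPrime p)) := by
  have : IsLocalizedModule p.primeCompl (LinearMap.pi fun i : Fin n =>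
      (Algebra.linearMap R (Localization.AtPrime p)) ∘ₗ LinearMap.proj i) := by
    infer_instance
  exact ⟨(IsLocalizedModule.linearEquiv p.primeCompl
    (LocalizedModule.mkLinearMap p.primeCompl (Fin n → R)) (LinearMap.pi fun i : Fin n =>
      (Algebra.linearMap R (Localization.AtPrime p)) ∘ₗ
        LinearMap.proj i)).extendScalarsOfIsLocalization p.primeCompl _⟩

/-- the quotient of `R³` by two proportional vectors -/
theorem locW (V1 V2 : Fin 3 → R) (hV : ∀ i j, V1 i * V2 j = V1 j * V2 i) (i : Fin 3)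
    (p : Ideal R) [p.IsPrime] (hi : V1 i ∉ p) :
    Nonempty (LocalizedModule p.primeCompl ((Fin 3 → R) ⧸ Submodule.span R {V1, V2})
      ≃ₗ[Localization.AtPrime p] (Fin 2 → Localization.AtPrime p)) := by
  let Φ0 : (Fin 3 → R) →ₗ[R] (Fin 2 → R) :=
    { toFun := fun r m => V1 i * r (i.succAbove m) - r i * V1 (i.succAbove m)
      map_add' := fun x y => by
        funext m
        simp only [Pi.add_apply]
        ring
      map_smul' := fun r x => by
        funext m
        simp only [Pi.smul_apply, smul_eq_mul, RingHom.id_apply]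
        ring }
  let Φ : ((Fin 3 → R) ⧸ Submodule.span R {V1, V2}) →ₗ[R] (Fin 2 → R) :=
    Submodule.liftQ _ Φ0 (by
      rw [Submodule.span_le]
      intro x hx
      rw [SetLike.mem_coe, LinearMap.mem_ker]
      funext m
      change V1 i * x (i.succAbove m) - x i * V1 (i.succAbove m) = 0
      rcases hx with hx | hx
      · rw [hx]
        ring
      · rw [Set.mem_singleton_iff.1 hx, hV]
        ring)
  let Ψ0 : (Fin 2 → R) →ₗ[R] (Fin 3 → R) :=
    { toFun := fun y => ∑ m, y m • (Pi.single (i.succAbove m) 1 : Fin 3 → R)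
      map_add' := fun x y => by
        simp only [Pi.add_apply, add_smul, Finset.sum_add_distrib]
      map_smul' := fun r x => by
        simp only [Pi.smul_apply, smul_eq_mul, RingHom.id_apply, Finset.smul_sum, mul_smul] }
  have hΨ1 : ∀ y, Ψ0 y i = 0 := by
    intro y
    change (∑ m, y m • (Pi.single (i.succAbove m) 1 : Fin 3 → R)) i = 0
    rw [Finset.sum_apply]
    refine Finset.sum_eq_zero fun m _ => ?_
    rw [Pi.smul_apply, Pi.single_eq_of_ne (Fin.succAbove_ne i m).symm, smul_zero]
  have hΨ2 : ∀ y m, Ψ0 y (i.succAbove m) = y m := by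
    intro y m
    change (∑ m, y m • (Pi.single (i.succAbove m) 1 : Fin 3 → R)) (i.succAbove m) = y m
    rw [Finset.sum_apply, Finset.sum_eq_single m]
    · rw [Pi.smul_apply, Pi.single_eq_same, smul_eq_mul, mul_one]
    · intro m' _ hm'
      rw [Pi.smul_apply, Pi.single_eq_of_ne, smul_zero]
      exact fun h => hm' (Fin.succAbove_right_injective h).symm
    · intro h
      exact absurd (Finset.mem_univ m) h
  let Ψ : (Fin 2 → R) →ₗ[R] ((Fin 3 → R) ⧸ Submodule.span R {V1, V2}) :=
    (Submodule.mkQ _) ∘ₗ Ψ0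
  obtain ⟨e1⟩ := loc_equiv_of Φ Ψ (V1 i) (by
    intro x
    obtain ⟨x, rfl⟩ := Submodule.mkQ_surjective _ x
    change (Submodule.span R {V1, V2}).mkQ (Ψ0 (Φ0 x)) = V1 i • (Submodule.span R {V1, V2}).mkQ x
    rw [← map_smul, ← sub_eq_zero, ← map_sub, Submodule.mkQ_apply, Submodule.Quotient.mk_eq_zero]
    have : Ψ0 (Φ0 x) - V1 i • x = (- x i) • V1 := by
      funext j
      rw [Pi.sub_apply, Pi.smul_apply, Pi.smul_apply, smul_eq_mul, smul_eq_mul]
      by_cases hj : j = i
      · subst hj
        rw [hΨ1]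
        ring
      · obtain ⟨m, rfl⟩ := Fin.exists_succAbove_eq hj
        rw [hΨ2]
        change V1 i * x (i.succAbove m) - x i * V1 (i.succAbove m) - _ = _
        ring
    rw [this]
    exact Submodule.smul_mem _ _ (Submodule.subset_span (by simp))) (by
    intro y
    change Φ0 (Ψ0 y) = V1 i • y
    funext m
    change V1 i * Ψ0 y (i.succAbove m) - Ψ0 y i * V1 (i.succAbove m) = V1 i * y m
    rw [hΨ1, hΨ2]
    ring) p hi
  obtain ⟨e2⟩ := loc_pi p 2
  exact ⟨e1.trans e2⟩

end gen

end Pool.Agent.TH215.CI
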