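import Pool.Agent.TH215.CI.W
import Pool.Agent.TH215.CI.S3

/-!
The module `W` over the local ring `R = RL k`, continued.
-/

set_option autoImplicit false

open CategoryTheory CategoryTheory.Limits

namespace Pool.Agent.TH215.CI

open T

section gen

variable {R : Type} [CommRing R]

theorem gCls_pi2 : gCls R (Fin 2 → R) = 2 • gCls R R := by
  rw [gCls_equiv (LinearEquiv.finTwoArrow R R),
    gCls_add (LinearMap.inl R R R) (LinearMap.snd R R R) LinearMap.inl_injective
      LinearMap.snd_surjective Function.Exact.inl_snd, two_smul]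

theorem gCls_pi3 : gCls R (Fin 3 → R) = 3 • gCls R R := by
  let f : R →ₗ[R] (Fin 3 → R) := LinearMap.single R (fun _ => R) 0
  let g : (Fin 3 → R) →ₗ[R] (Fin 2 → R) := LinearMap.funLeft R R Fin.succ
  have hf : Function.Injective f := by
    intro x y hxy
    have := congrFun hxy 0
    simpa [f] using this
  have hg : Function.Surjective g := LinearMap.funLeft_surjective_of_injective R R _
    (Fin.succ_injective _)
  have hex : Function.Exact f g := by
    intro x
    constructor
    · intro hx
      refine ⟨x 0, ?_⟩
      funext j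
      refine Fin.cases ?_ (fun m => ?_) j
      · simp [f]
      · have := congrFun hx m
        change x m.succ = 0 at this
        rw [this]
        simp [f]
    · rintro ⟨y, rfl⟩
      funext m
      change (Pi.single 0 y : Fin 3 → R) m.succ = 0
      rw [Pi.single_eq_of_ne (Fin.succ_ne_zero m)]
  rw [gCls_add f g hf hg hex, gCls_pi2, show (3 : ℕ) = 1 + 2 from rfl, add_smul, one_smul]

theorem gRedQ_eq_zero' {B : Type} [AddCommGroup B] [Module R B] [Module.Finite R B] (n : ℕ)
    (h : gCls R B = n • gCls R R) : gRedQ R B = 0 := by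
  unfold gRedQ
  rw [h, map_nsmul]
  have : toGRed R (gCls R R) = 0 :=
    (QuotientAddGroup.eq_zero_iff _).2 (AddSubgroup.mem_zmultiples _)
  rw [this, smul_zero, TensorProduct.tmul_zero]

variable [IsNoetherianRing R] {a b c u v : R} (h : Hyp a b c u v)

include h in
theorem Hyp.gCls_W (hI : gCls R (Ideal.span {a, b, c}) = gCls R R) :
    gCls R (WM a b c u v) = 2 • gCls R R := by
  have e1 := gCls_add (R := R) (KW a b c u v).subtype (KW a b c u v).mkQ
    (Submodule.injective_subtype _) (Submodule.mkQ_surjective _) (LinearMap.exact_subtype_mkQ _)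
  have e2 := gCls_add (R := R) (LinearMap.ker (βW a b c u v)).subtype (βW a b c u v)
    (Submodule.injective_subtype _) βW_surj (LinearMap.exact_subtype_ker_map _)
  let l : LinearMap.ker (βW a b c u v) →ₗ[R] Ideal.span {a, b, c} :=
    { toFun := fun x => ⟨(x : Fin 2 → R) 1, h.mem_kerW1 x.2⟩
      map_add' := fun x y => rfl
      map_smul' := fun r x => rfl }
  have hl : Function.Bijective l := by
    constructor
    · rw [injective_iff_map_eq_zero]
      intro x hx
      have x1 : (x : Fin 2 → R) 1 = 0 := congrArg Subtype.val hx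
      have x0 : (x : Fin 2 → R) 0 = 0 := by
        apply h.areg
        have := mem_kerW x.2
        rw [x1] at this
        simpa using this
      apply Subtype.ext
      funext j
      fin_cases j
      · exact x0
      · exact x1
    · rintro ⟨y, hy⟩
      obtain ⟨s, t, r, rfl⟩ := mem3 hy
      refine ⟨-(s • h.n 0 + t • h.n 1 + r • h.n 2), ?_⟩
      apply Subtype.ext
      change -(s * (- pv1 a b c 0) + t * (- pv1 a b c 1) + r * (- pv1 a b c 2)) = _
      simp only [pv1, Matrix.cons_val_zero, Matrix.cons_val_one, Matrix.cons_val]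
      ring
  have e3 := gCls_equiv (LinearEquiv.ofBijective l hl)
  rw [e3, hI, gCls_pi2] at e2
  rw [gCls_pi3] at e1
  have e4 : gCls R (KW a b c u v) = gCls R R := by
    have : 2 • gCls R R = gCls R R + gCls R (KW a b c u v) := e2
    rw [two_smul] at this
    exact (add_left_cancel this).symm
  rw [e4] at e1
  have e5 : 3 • gCls R R = gCls R R + 2 • gCls R R := by
    rw [show (3 : ℕ) = 1 + 2 from rfl, add_smul, one_smul]
  rw [e5] at e1
  exact (add_left_cancel e1).symm

end gen

variable (k : Type) [Field k]

theorem hypR : Hyp (ι k a) (ι k b) (ι k c) (ι k u) (ι k v) where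
  av := rel1 k
  bv := rel2 k
  areg := ιa_reg k
  B1 f hf := by
    have h1 := colon_loc k _ _ u B1 f (by
      rw [Ideal.map_span, Set.image_singleton]
      exact hf)
    rw [Ideal.map_span, Set.image_pair] at h1
    exact h1
  B2 f hf := by
    have h1 := colon_loc k _ _ u B2 f (by
      rw [Ideal.map_span, Set.image_pair]
      exact hf)
    rw [Ideal.map_span, Set.image_insert_eq, Set.image_pair] at h1
    exact h1
  B3 f hf := by
    have h1 := colon_loc k _ _ b B3 f (by
      rw [Ideal.map_span, Set.image_insert_eq, Set.image_pair]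
      exact hf)
    rw [Ideal.map_span, Set.image_insert_eq, Set.image_pair] at h1
    exact h1
  B4 f hf := by
    have h1 := colon_loc k _ _ c B4 f (by
      rw [Ideal.map_span, Set.image_insert_eq, Set.image_insert_eq, Set.image_pair]
      exact hf)
    rw [Ideal.map_span, Set.image_insert_eq, Set.image_insert_eq, Set.image_pair] at h1
    exact h1
  B5 f hf := by
    have h1 := colon_loc k _ _ v B5 f (by
      rw [Ideal.map_span, Set.image_insert_eq, Set.image_pair]
      exact hf)
    rw [Ideal.map_span, Set.image_insert_eq, Set.image_pair] at h1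
    exact h1
  B6 f hf := by
    have h1 := colon_loc k _ _ v B6 f (by
      rw [Ideal.map_span, Set.image_insert_eq, Set.image_insert_eq, Set.image_pair]
      exact hf)
    rw [Ideal.map_span, Set.image_insert_eq, Set.image_insert_eq, Set.image_pair] at h1
    exact h1
  B7 f hf := by
    have h1 := colon_loc k _ _ c B7 f (by
      rw [Ideal.map_span, Set.image_insert_eq, Set.image_pair]
      exact hf)
    rw [Ideal.map_span, Set.image_insert_eq, Set.image_pair] at h1
    exact h1

/-- the module `W` over `R` -/
abbrev WR : Type := WM (ι k a) (ι k b) (ι k c) (ι k u) (ι k v)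

theorem W_cls : gCls (RL k) (WR k) = 2 • gCls (RL k) (RL k) :=
  (hypR k).gCls_W (cls_NI k)

theorem W_tor1 : IsZero (((Tor (ModuleCat (RL k)) 1).obj (ModuleCat.of (RL k) (WR k))).obj
    (ModuleCat.of (RL k) (WR k))) := (hypR k).tor_one

theorem W_tor2 : ¬ IsZero (((Tor (ModuleCat (RL k)) 2).obj (ModuleCat.of (RL k) (WR k))).obj
    (ModuleCat.of (RL k) (WR k))) := by
  refine (hypR k).tor_two (tvR k 0) ?_ ?_ ?_ ?_ ?_ <;> rw [tvR_ι] <;>
    simp [tv, a, b, c, u, px, py, pz, εK]

/-- local freeness on the punctured spectrum -/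
theorem W_loc_free (p : Ideal (RL k)) [p.IsPrime] (hp : p ≠ IsLocalRing.maximalIdeal (RL k)) :
    Nonempty (LocalizedModule p.primeCompl (WR k) ≃ₗ[Localization.AtPrime p]
      (Fin 2 → Localization.AtPrime p)) := by
  have hm := (hypR k).minor
  have hsw : KW (ι k a) (ι k b) (ι k c) (ι k u) (ι k v) =
      Submodule.span (RL k) {pv2 (ι k u) (ι k v), pv1 (ι k a) (ι k b) (ι k c)} := by
    rw [KW, Set.pair_comm]
  have c1 : ∀ i, pv1 (ι k a) (ι k b) (ι k c) i ∉ p →
      Nonempty (LocalizedModule p.primeCompl (WR k) ≃ₗ[Localization.AtPrime p]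
      (Fin 2 → Localization.AtPrime p)) := fun i hi => locW _ _ hm i p hi
  have c2 : ∀ i, pv2 (ι k u) (ι k v) i ∉ p →
      Nonempty (LocalizedModule p.primeCompl (WR k) ≃ₗ[Localization.AtPrime p]
      (Fin 2 → Localization.AtPrime p)) := by
    intro i hi
    have := locW (pv2 (ι k u) (ι k v)) (pv1 (ι k a) (ι k b) (ι k c))
      (fun i j => by rw [mul_comm, hm j i, mul_comm]) i p hi
    rw [← hsw] at this
    exact this
  by_cases ha : ι k a ∈ p
  · by_cases hb : ι k b ∈ p
    · by_cases hc : ι k c ∈ p
      · by_cases hu : ι k u ∈ p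
        · by_cases hv : ι k v ∈ p
          · exfalso
            apply hp
            apply le_antisymm (IsLocalRing.le_maximalIdeal (Ideal.IsPrime.ne_top ‹_›))
            rw [← Localization.AtPrime.map_eq_maximalIdeal, Ideal.map_le_iff_le_comap]
            refine mT_le.trans ?_
            rw [Ideal.span_le]
            rintro _ (rfl | rfl | rfl | rfl | rfl)
            · exact ha
            · exact hb
            · exact hc
            · exact hu
            · exact hv
          · exact c2 2 (fun h => hv (Ideal.IsPrime.mem_of_pow_mem ‹_› _ h))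
        · exact c2 0 (fun h => hu (Ideal.IsPrime.mem_of_pow_mem ‹_› _ h))
      · exact c1 2 hc
    · exact c1 1 hb
  · exact c1 0 ha

end Pool.Agent.TH215.CI
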